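import Mathlib
import Pool.Agent.Run7.h407.D.Fin

/-!
Leray-Hopf solutions of the projected equations: definitions and basic facts.
-/

namespace Pool.Agent.Run7.h407.LH

open Set Filter Topology MeasureTheory
open scoped ContDiff

/-- `D` is the gradient of `w` in the sense of distributions, square integrable. -/
def WGr (w : V → V) (D : Fin 3 → Fin 3 → V → ℝ) : Prop :=
  ∀ i j, MemLp (D i j) 2 volume ∧ ∀ φ : V → ℝ, ContDiff ℝ ∞ φ → HasCompactSupport φ →
    ∫ x, w x i * pd j φ x = -∫ x, D i j x * φ x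

/-- The integrand of the weak formulation. -/
noncomputable def Wk (ν : ℝ) (v ψ : ℝ → V → V) (s : ℝ) (x : V) : ℝ :=
  ∑ i, (v s x i * deriv (fun r => ψ r x i) s
    + (∑ j, v s x i * v s x j * pd j (fun y => ψ s y i) x)
    + ν * (v s x i * ∑ j, pd j (pd j (fun y => ψ s y i)) x))

/-- Leray-Hopf solutions. -/
structure IsLH (W : Submodule ℝ (V → V)) (ν T : ℝ) (v : ℝ → V → V) : Prop where
  meas : AEStronglyMeasurable (fun z : ℝ × V => v z.1 z.2) (volume.restrict (Ioo 0 T ×ˢ univ))
  mem : ∀ t ∈ Ico 0 T, v t ∈ W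
  en : ∃ D : ℝ → Fin 3 → Fin 3 → V → ℝ,
    (0 < ν → ∀ᵐ s ∂(volume.restrict (Ioo 0 T)), WGr (v s) (D s)) ∧
    ∀ t ∈ Ico 0 T, IntervalIntegrable (fun s => ∫ x, ∑ i, ∑ j, D s i j x ^ 2) volume 0 t ∧
      ip (v t) (v t) + 2 * ν * (∫ s in (0 : ℝ)..t, ∫ x, ∑ i, ∑ j, D s i j x ^ 2) ≤ ip (v 0) (v 0)
  weak : ∀ t ∈ Ioo 0 T, ∀ ψ : ℝ → V → V,
    ContDiffOn ℝ ∞ (fun z : ℝ × V => ψ z.1 z.2) (Icc 0 t ×ˢ univ) →
    (∃ ρ, ∀ s ∈ Icc 0 t, ∀ x, ρ < ‖x‖ → ψ s x = 0) → (∀ s ∈ Icc 0 t, ψ s ∈ W) →
    ip (v t) (ψ t) - ip (v 0) (ψ 0) = ∫ s in (0 : ℝ)..t, ∫ x, Wk ν v ψ s x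

/-- Gronwall's lemma for bounded functions. -/
theorem gron2 {y : ℝ → ℝ} {b K M : ℝ} (hK : 0 ≤ K) (hM0 : 0 ≤ M)
    (hg : IntegrableOn y (Ioc 0 b)) (hM : ∀ t ∈ Icc 0 b, y t ≤ M)
    (hy : ∀ t ∈ Icc 0 b, y t ≤ K * ∫ s in Ioc 0 t, y s) : ∀ t ∈ Icc 0 b, y t ≤ 0 := by
  have hind : ∀ k : ℕ, ∀ t ∈ Icc 0 b, y t ≤ M * ((K * t) ^ k / k.factorial) := by
    intro k
    induction k with
    | zero =>
      intro t ht
      simp only [pow_zero, Nat.factorial_zero, Nat.cast_one, div_one, mul_one]
      exact hM t ht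
    | succ k ih =>
      intro t ht
      refine (hy t ht).trans ?_
      have hsub : Ioc 0 t ⊆ Ioc 0 b := Ioc_subset_Ioc_right ht.2
      have h1 : ∫ s in Ioc 0 t, y s ≤ ∫ s in Ioc 0 t, M * ((K * s) ^ k / k.factorial) := by
        apply setIntegral_mono_on (hg.mono_set hsub) _ measurableSet_Ioc
        · intro s hs
          exact ih s ⟨hs.1.le, (hsub hs).2⟩
        · apply Continuous.integrableOn_Ioc
          fun_prop
      refine (mul_le_mul_of_nonneg_left h1 hK).trans (le_of_eq ?_)
      rw [← intervalIntegral.integral_of_le ht.1]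
      have e : (fun s : ℝ => M * ((K * s) ^ k / k.factorial))
          = fun s => (K ^ k * M / k.factorial) * s ^ k := by
        funext s
        rw [mul_pow]
        ring
      rw [e, intervalIntegral.integral_const_mul, integral_pow, Nat.factorial_succ]
      push_cast
      have h2 : (k.factorial : ℝ) ≠ 0 := by positivity
      have h3 : (k : ℝ) + 1 ≠ 0 := by positivity
      rw [zero_pow (by omega)]
      field_simp
      ring
  intro t ht
  have h1 : Tendsto (fun k : ℕ => M * ((K * t) ^ k / k.factorial)) atTop (𝓝 (M * 0)) :=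
    (FloorSemiring.tendsto_pow_div_factorial_atTop (K * t)).const_mul _
  rw [mul_zero] at h1
  exact ge_of_tendsto' h1 fun k => hind k t ht

theorem ipL_add_right {u v1 v2 : V → V} (hu : L2F u) (h1 : L2F v1) (h2 : L2F v2) :
    ip u (fun x => v1 x + v2 x) = ip u v1 + ip u v2 := by
  rw [ip_comm, ipL_add h1 h2 hu, ip_comm v1, ip_comm v2]

theorem ipL_sub_right {u v1 v2 : V → V} (hu : L2F u) (h1 : L2F v1) (h2 : L2F v2) :
    ip u (fun x => v1 x - v2 x) = ip u v1 - ip u v2 := by
  rw [ip_comm, ipL_sub h1 h2 hu, ip_comm v1, ip_comm v2]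

theorem ip_nonneg (v : V → V) : 0 ≤ ip v v :=
  integral_nonneg fun x => Finset.sum_nonneg fun i _ => mul_self_nonneg _

theorem ip_congr_ae {u u' : V → V} (h : u =ᵐ[volume] u') (v : V → V) : ip u v = ip u' v := by
  apply integral_congr_ae
  filter_upwards [h] with x hx
  rw [hx]

/-- The convective term of a square integrable field with a test field. -/
theorem adv_l2 {w u : V → V} (hw : L2F w) (hu : CF u) : L2F (adv w u) := by
  intro i
  show MemLp (fun x => ∑ j, w x j * pd j (fun y => u y i) x) 2 volume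
  apply memLp_finsetSum
  intro j _
  obtain ⟨C, hC⟩ := (pd_cs (hu.csc i) j).exists_bound_of_continuous ((hu.smc i).pd j).continuous
  have h1 := memLp_bdd (f := pd j (fun y => u y i)) ((hu.smc i).pd j).continuous
    (C := C) (fun x => hC x) (hw j)
  have e : (fun x => w x j * pd j (fun y => u y i) x)
      = fun x => pd j (fun y => u y i) x * w x j := by
    funext x
    ring
  rw [e]
  exact h1

theorem adv_orth {w u : V → V} (hw : WDF w) (hu : CF u) : ip (adv w u) u = 0 := by
  have h0 : ContDiff ℝ ∞ (fun x => (1 / 2 : ℝ) * ∑ i, u x i * u x i) := by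
    apply contDiff_const.mul
    apply ContDiff.sum
    intro i _
    exact (hu.smc i).mul (hu.smc i)
  have h1 : HasCompactSupport (fun x => (1 / 2 : ℝ) * ∑ i, u x i * u x i) := by
    apply hu.cs.mono'
    intro x hx
    apply subset_tsupport
    intro hx0
    apply hx
    show (1 / 2 : ℝ) * ∑ i, u x i * u x i = 0
    rw [hx0]
    simp
  have h2 := hw _ h0 h1
  rw [← h2]
  unfold ip
  congr 1
  funext x
  have h3 : ∀ j, pd j (fun x => (1 / 2 : ℝ) * ∑ i, u x i * u x i) x
      = ∑ i, u x i * pd j (fun y => u y i) x := by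
    intro j
    have hd : ∀ i ∈ (Finset.univ : Finset (Fin 3)),
        DifferentiableAt ℝ (fun y => u y i * u y i) x := fun i _ =>
      ((hu.smc i).diff x).mul ((hu.smc i).diff x)
    have hd2 : DifferentiableAt ℝ (fun y => ∑ i, u y i * u y i) x := DifferentiableAt.fun_sum hd
    rw [pd_const_mul _ hd2, pd_sum hd, Finset.mul_sum]
    apply Finset.sum_congr rfl
    intro i _
    rw [pd_mul ((hu.smc i).diff x) ((hu.smc i).diff x)]
    ring
  simp_rw [h3]
  unfold adv
  simp_rw [Finset.mul_sum, Finset.sum_mul]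
  rw [Finset.sum_comm]
  apply Finset.sum_congr rfl
  intro i _
  apply Finset.sum_congr rfl
  intro j _
  ring

theorem wgr_lap {w u : V → V} {D : Fin 3 → Fin 3 → V → ℝ} (hw : L2F w) (hD : WGr w D)
    (hu : CF u) : ip (lap u) w = -∫ x, ∑ i, ∑ j, D i j x * pd j (fun y => u y i) x := by
  have i1 : ∀ i j, Integrable (fun x => w x i * pd j (pd j (fun y => u y i)) x) volume := by
    intro i j
    have h1 : MemLp (pd j (pd j (fun y => u y i))) 2 volume :=
      (((hu.smc i).pd j).pd j).continuous.memLp_of_hasCompactSupport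
        (pd_cs (pd_cs (hu.csc i) j) j)
    exact (hw i).integrable_mul h1
  have i2 : ∀ i j, Integrable (fun x => D i j x * pd j (fun y => u y i) x) volume := by
    intro i j
    have h1 : MemLp (pd j (fun y => u y i)) 2 volume :=
      ((hu.smc i).pd j).continuous.memLp_of_hasCompactSupport (pd_cs (hu.csc i) j)
    exact (hD i j).1.integrable_mul h1
  have e : ip (lap u) w = ∫ x, ∑ i, ∑ j, w x i * pd j (pd j (fun y => u y i)) x := by
    unfold ip
    congr 1
    funext x
    apply Finset.sum_congr rfl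
    intro i _
    unfold lap
    rw [Finset.sum_mul]
    apply Finset.sum_congr rfl
    intro j _
    ring
  rw [e, integral_finsetSum _ fun i _ => integrable_finsetSum _ fun j _ => i1 i j,
    integral_finsetSum _ fun i _ => integrable_finsetSum _ fun j _ => i2 i j,
    ← Finset.sum_neg_distrib]
  apply Finset.sum_congr rfl
  intro i _
  rw [integral_finsetSum _ fun j _ => i1 i j, integral_finsetSum _ fun j _ => i2 i j,
    ← Finset.sum_neg_distrib]
  apply Finset.sum_congr rfl
  intro j _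
  exact (hD i j).2 _ ((hu.smc i).pd j) (pd_cs (hu.csc i) j)

theorem wgr_nonneg {w u : V → V} {D : Fin 3 → Fin 3 → V → ℝ} (hw : L2F w) (hD : WGr w D)
    (hu : CF u) : 0 ≤ (∫ x, ∑ i, ∑ j, D i j x ^ 2) + Dir u u + 2 * ip (lap u) w := by
  rw [wgr_lap hw hD hu]
  have m2 : ∀ i j, MemLp (pd j (fun y => u y i)) 2 volume := fun i j =>
    ((hu.smc i).pd j).continuous.memLp_of_hasCompactSupport (pd_cs (hu.csc i) j)
  have i1 : Integrable (fun x => ∑ i, ∑ j, D i j x ^ 2) volume :=
    integrable_finsetSum _ fun i _ => integrable_finsetSum _ fun j _ => (hD i j).1.integrable_sq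
  have i2 : Integrable (fun x => ∑ i, ∑ j, D i j x * pd j (fun y => u y i) x) volume :=
    integrable_finsetSum _ fun i _ => integrable_finsetSum _ fun j _ =>
      (hD i j).1.integrable_mul (m2 i j)
  have i3 : Integrable (fun x => ∑ i, ∑ j, pd j (fun y => u y i) x * pd j (fun y => u y i) x)
      volume :=
    integrable_finsetSum _ fun i _ => integrable_finsetSum _ fun j _ =>
      (m2 i j).integrable_mul (m2 i j)
  have h1 : 0 ≤ ∫ x, ((∑ i, ∑ j, D i j x ^ 2)
      + (∑ i, ∑ j, pd j (fun y => u y i) x * pd j (fun y => u y i) x)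
      + -2 * ∑ i, ∑ j, D i j x * pd j (fun y => u y i) x) := by
    apply integral_nonneg
    intro x
    show 0 ≤ (∑ i, ∑ j, D i j x ^ 2)
      + (∑ i, ∑ j, pd j (fun y => u y i) x * pd j (fun y => u y i) x)
      + -2 * ∑ i, ∑ j, D i j x * pd j (fun y => u y i) x
    rw [Finset.mul_sum, ← Finset.sum_add_distrib, ← Finset.sum_add_distrib]
    apply Finset.sum_nonneg
    intro i _
    rw [Finset.mul_sum, ← Finset.sum_add_distrib, ← Finset.sum_add_distrib]
    apply Finset.sum_nonneg
    intro j _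
    nlinarith [sq_nonneg (D i j x - pd j (fun y => u y i) x)]
  have i13 : Integrable (fun x => (∑ i, ∑ j, D i j x ^ 2)
      + (∑ i, ∑ j, pd j (fun y => u y i) x * pd j (fun y => u y i) x)) volume := i1.add i3
  rw [integral_add i13 (i2.const_mul _), integral_add i1 i3, integral_const_mul] at h1
  unfold Dir
  linarith

theorem adv_ip_bound {w u : V → V} (hw : L2F w) (hu : CF u) {G : ℝ}
    (hG : ∀ x i j, |pd j (fun y => u y i) x| ≤ G) : |ip (adv w u) w| ≤ 3 * G * ip w w := by
  have hG0 : 0 ≤ G := (abs_nonneg _).trans (hG 0 0 0)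
  have i1 := ipL_int (adv_l2 hw hu) hw
  have i2 := ipL_int hw hw
  unfold ip
  rw [← integral_const_mul, ← Real.norm_eq_abs]
  refine (norm_integral_le_integral_norm _).trans ?_
  apply integral_mono i1.norm (i2.const_mul _)
  intro x
  show ‖∑ i, adv w u x i * w x i‖ ≤ 3 * G * ∑ i, w x i * w x i
  have h1 : ∀ i, ‖adv w u x i * w x i‖ ≤ ∑ j, G * (|w x j| * |w x i|) := by
    intro i
    rw [norm_mul, Real.norm_eq_abs, Real.norm_eq_abs]
    unfold adv
    have h2 : |∑ j, w x j * pd j (fun y => u y i) x| ≤ ∑ j, |w x j| * G := by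
      refine (Finset.abs_sum_le_sum_abs _ _).trans (Finset.sum_le_sum fun j _ => ?_)
      rw [abs_mul]
      exact mul_le_mul_of_nonneg_left (hG x i j) (abs_nonneg _)
    refine (mul_le_mul_of_nonneg_right h2 (abs_nonneg _)).trans (le_of_eq ?_)
    rw [Finset.sum_mul]
    apply Finset.sum_congr rfl
    intro j _
    ring
  refine (norm_sum_le _ _).trans ((Finset.sum_le_sum fun i _ => h1 i).trans ?_)
  have h3 : ∀ i, w x i * w x i = |w x i| * |w x i| := fun i => (abs_mul_abs_self _).symm
  simp_rw [h3, Fin.sum_univ_three]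
  set a := |w x 0|
  set b := |w x 1|
  set c := |w x 2|
  nlinarith [mul_nonneg hG0 (sq_nonneg (a - b)), mul_nonneg hG0 (sq_nonneg (b - c)),
    mul_nonneg hG0 (sq_nonneg (a - c))]

theorem adv_sub_left (a b u : V → V) (x : V) :
    adv a u x - adv b u x = adv (fun y => a y - b y) u x := by
  funext i
  show (∑ j, a x j * pd j (fun y => u y i) x) - (∑ j, b x j * pd j (fun y => u y i) x)
    = ∑ j, (a x - b x) j * pd j (fun y => u y i) x
  rw [← Finset.sum_sub_distrib]
  apply Finset.sum_congr rfl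
  intro j _
  simp only [Pi.sub_apply]
  ring

/-- The integrand of the weak formulation tested with a smooth compactly supported field. -/
theorem wk_eq {T R ν : ℝ} {u v : ℝ → V → V} (hu : TF T R u) {s : ℝ} (hs : s ∈ Ioo 0 T)
    (hv : L2F (v s)) : ∫ x, Wk ν v u s x
      = ip (dtf u s) (v s) + ip (adv (v s) (u s)) (v s) + ν * ip (lap (u s)) (v s) := by
  have hs' : s ∈ Ico 0 T := ⟨hs.1.le, hs.2⟩
  have hc := hu.slice_CF hs'
  have i1 := ipL_int (hu.cls.dt_l2 hs) hv
  have i2 := ipL_int (adv_l2 hv hc) hv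
  have i3 := ipL_int (lap_CF hc).l2 hv
  have i12 : Integrable (fun x => (∑ i, dtf u s x i * v s x i)
      + ∑ i, adv (v s) (u s) x i * v s x i) volume := i1.add i2
  unfold ip
  rw [← integral_const_mul, ← integral_add i1 i2, ← integral_add i12 (i3.const_mul ν)]
  congr 1
  funext x
  unfold Wk
  rw [Finset.mul_sum, ← Finset.sum_add_distrib, ← Finset.sum_add_distrib]
  apply Finset.sum_congr rfl
  intro i _
  show v s x i * deriv (fun r => u r x i) s
    + (∑ j, v s x i * v s x j * pd j (fun y => u s y i) x)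
    + ν * (v s x i * ∑ j, pd j (pd j (fun y => u s y i)) x)
    = deriv (fun r => u r x i) s * v s x i + (∑ j, v s x j * pd j (fun y => u s y i) x) * v s x i
      + ν * ((∑ j, pd j (pd j (fun y => u s y i)) x) * v s x i)
  rw [Finset.sum_mul]
  have e : (∑ j, v s x i * v s x j * pd j (fun y => u s y i) x)
      = ∑ j, v s x j * pd j (fun y => u s y i) x * v s x i := by
    apply Finset.sum_congr rfl
    intro j _
    ring
  rw [e]
  ring

end Pool.Agent.Run7.h407.LH
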