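import Mathlib
import Pool.Agent.Run7.h407.LH.Def

/-!
Leray-Hopf solutions coincide with the smooth solution.
-/

namespace Pool.Agent.Run7.h407.LH

open Set Filter Topology MeasureTheory
open scoped ContDiff

theorem prod_restrict_eq (b : ℝ) : (volume.restrict (Ioc (0 : ℝ) b)).prod (volume : Measure V)
    = (volume : Measure (ℝ × V)).restrict (Ioc 0 b ×ˢ univ) := by
  rw [Measure.volume_eq_prod, ← Measure.prod_restrict, Measure.restrict_univ]

theorem two_abs_ip {a b : V → V} (ha : L2F a) (hb : L2F b) :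
    2 * |ip a b| ≤ ip a a + ip b b := by
  have h1 := ip_nonneg (fun x => a x + b x)
  have h2 := ip_nonneg (fun x => a x - b x)
  rw [ipL_add ha hb (ha.add hb), ipL_add_right ha ha hb, ipL_add_right hb ha hb,
    ip_comm b a] at h1
  rw [ipL_sub ha hb (ha.sub hb), ipL_sub_right ha ha hb, ipL_sub_right hb ha hb,
    ip_comm b a] at h2
  have h3 : |2 * ip a b| ≤ ip a a + ip b b := by
    rw [abs_le]
    constructor <;> linarith
  rwa [abs_mul, abs_of_pos (by norm_num : (0 : ℝ) < 2)] at h3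

/-- Integrability of a parametric integral. -/
theorem int_param {b C : ℝ} {f : ℝ × V → ℝ}
    (hm : AEStronglyMeasurable f ((volume.restrict (Ioc (0 : ℝ) b)).prod (volume : Measure V)))
    (hC : ∀ s ∈ Ioc 0 b, |∫ x, f (s, x)| ≤ C) :
    IntegrableOn (fun s => ∫ x, f (s, x)) (Ioc 0 b) := by
  have : IsFiniteMeasure ((volume : Measure ℝ).restrict (Ioc 0 b)) :=
    ⟨by
      rw [Measure.restrict_apply_univ]
      exact measure_Ioc_lt_top⟩
  apply Integrable.of_bound hm.integral_prod_right' C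
  rw [ae_restrict_iff' measurableSet_Ioc]
  exact Eventually.of_forall fun s hs => hC s hs

theorem TF.pd_cont {T R : ℝ} {u : ℝ → V → V} (hu : TF T R u) (i j : Fin 3) :
    ContinuousOn (fun z : ℝ × V => pd j (fun y => u z.1 y i) z.2) (Ico 0 T ×ˢ univ) :=
  SmT.coord_cont (hu.der j).sm i

theorem TF.pdd_cont {T R : ℝ} {u : ℝ → V → V} (hu : TF T R u) (i j k : Fin 3) :
    ContinuousOn (fun z : ℝ × V => pd j (pd k (fun y => u z.1 y i)) z.2) (Ico 0 T ×ˢ univ) :=
  SmT.coord_cont ((hu.der k).der j).sm i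

theorem TF.lap_bdd {T R : ℝ} {u : ℝ → V → V} (hu : TF T R u) {b : ℝ} (hb : b ∈ Ico 0 T) :
    ∃ C, ∀ s ∈ Icc 0 b, ip (lap (u s)) (lap (u s)) ≤ C := by
  have hjk : ∀ j, ∃ C, 0 ≤ C ∧ ∀ t ∈ Icc 0 b, ∀ x, ‖pdf j (pdf j u) t x‖ ≤ C :=
    fun j => ((hu.der j).der j).bdd hb
  choose C hC0 hC using hjk
  refine ⟨∑ _i : Fin 3, (∑ j, C j) ^ 2 * (volume : Measure V).real (Metric.closedBall 0 R),
    fun s hs => ?_⟩
  have hs' : s ∈ Ico 0 T := ⟨hs.1, hs.2.trans_lt hb.2⟩
  have hc := hu.slice_CF hs'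
  have hl := lap_CF hc
  have h1 : ∀ i, Sq ((∑ j, C j) ^ 2 * (volume : Measure V).real (Metric.closedBall 0 R))
      (fun x => lap (u s) x i) := by
    intro i
    refine sq_of_bdd (R := R) (hl.smc i).continuous (fun x => ?_) (fun x hx => ?_)
    · show |∑ j, pd j (pd j (fun y => u s y i)) x| ≤ ∑ j, C j
      refine (Finset.abs_sum_le_sum_abs _ _).trans (Finset.sum_le_sum fun j _ => ?_)
      rw [← Real.norm_eq_abs]
      exact (norm_le_pi_norm (pdf j (pdf j u) s x) i).trans (hC j s hs x)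
    · show ∑ j, pd j (pd j (fun y => u s y i)) x = 0
      apply Finset.sum_eq_zero
      intro j _
      exact congrFun (((hu.der j).der j).sp s hs' x hx) i
  have hi : ∀ i ∈ (Finset.univ : Finset (Fin 3)),
      Integrable (fun x => lap (u s) x i * lap (u s) x i) volume := fun i _ =>
    (h1 i).1.integrable_mul (h1 i).1
  unfold ip
  rw [integral_finsetSum _ hi]
  apply Finset.sum_le_sum
  intro i _
  have h2 := (h1 i).2
  simp only [pow_two] at h2 ⊢
  exact h2

theorem lh_unique {W : Submodule ℝ (V → V)} {ν T T' R : ℝ} (hν : 0 ≤ ν) {u v : ℝ → V → V}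
    (hu : TF T R u) (hW2 : ∀ w ∈ W, L2F w) (hWd : ∀ w ∈ W, WDF w)
    (hum : ∀ t ∈ Ico 0 T, u t ∈ W)
    (hue : ∀ t ∈ Ioo 0 T, ∀ w ∈ W, ∫ x, ∑ i, residual ν u t x i * w x i = 0)
    (hv : IsLH W ν T' v) (h0 : v 0 =ᵐ[volume] u 0) :
    ∀ t ∈ Ico 0 T', t < T → v t =ᵐ[volume] u t := by
  intro b hb hbT
  rcases hb.1.eq_or_lt with h | hb0
  · rw [← h]
    exact h0
  have hbT' : b ∈ Ico 0 T := ⟨hb.1, hbT⟩
  obtain ⟨D, hD1, hD2⟩ := hv.en
  obtain ⟨G, hG⟩ := hu.grad_bdd hbT'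
  have hG0 : 0 ≤ G := (abs_nonneg _).trans (hG 0 ⟨le_rfl, hb.1⟩ 0 0 0)
  obtain ⟨L, hL⟩ := TF.lap_bdd hu hbT'
  set w : ℝ → V → V := fun s x => v s x - u s x with hw
  set d : ℝ → ℝ := fun s => ∫ x, ∑ i, ∑ j, D s i j x ^ 2 with hd
  set P : ℝ → ℝ := fun s => ip (adv (w s) (u s)) (w s) with hP
  set Q : ℝ → ℝ := fun s => ip (lap (u s)) (v s) with hQ
  have cu : ∀ s ∈ Icc 0 b, CF (u s) := fun s hs => hu.slice_CF ⟨hs.1, hs.2.trans_lt hbT⟩
  have lv : ∀ s ∈ Icc 0 b, L2F (v s) := fun s hs => hW2 _ (hv.mem s ⟨hs.1, hs.2.trans_lt hb.2⟩)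
  have lw : ∀ s ∈ Icc 0 b, L2F (w s) := fun s hs => (lv s hs).sub (cu s hs).l2
  have ww : ∀ s ∈ Icc 0 b, WDF (w s) := fun s hs => hWd _ (W.sub_mem
    (hv.mem s ⟨hs.1, hs.2.trans_lt hb.2⟩) (hum s ⟨hs.1, hs.2.trans_lt hbT⟩))
  have hc0 : (0 : ℝ) ∈ Icc 0 b := ⟨le_rfl, hb.1⟩
  -- the energies
  have hdn : ∀ s, 0 ≤ d s := fun s => integral_nonneg fun x =>
    Finset.sum_nonneg fun i _ => Finset.sum_nonneg fun j _ => sq_nonneg _
  have e0 : ip (v 0) (v 0) = ip (u 0) (u 0) := by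
    rw [ip_congr_ae h0, ip_comm, ip_congr_ae h0]
  have e1 : ip (v 0) (u 0) = ip (u 0) (u 0) := ip_congr_ae h0 _
  have ev : ∀ s ∈ Icc 0 b, ip (v s) (v s) + 2 * ν * ∫ r in Ioc 0 s, d r ≤ ip (u 0) (u 0) := by
    intro s hs
    have h1 := (hD2 s ⟨hs.1, hs.2.trans_lt hb.2⟩).2
    rw [e0, intervalIntegral.integral_of_le hs.1] at h1
    exact h1
  have hdv : ∀ s ∈ Ioo 0 T, ∀ x, dvg (u s) x = 0 := by
    intro s hs x
    exact dvg_of_wdf (hu.slice_CF ⟨hs.1.le, hs.2⟩).sm (hWd _ (hum s ⟨hs.1.le, hs.2⟩)) x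
  have eu : ∀ s ∈ Icc 0 b, ip (u s) (u s) + 2 * ν * ∫ r in Ioc 0 s, Dir (u r) (u r)
      = ip (u 0) (u 0) := by
    intro s hs
    have h1 := cls_energy hu.cls hdv (fun r hr => hue r hr _ (hum r ⟨hr.1.le, hr.2⟩))
      (t := s) ⟨hs.1, hs.2.trans_lt hbT⟩
    rw [intervalIntegral.integral_of_le hs.1] at h1
    exact h1
  have bv : ∀ s ∈ Icc 0 b, ip (v s) (v s) ≤ ip (u 0) (u 0) := by
    intro s hs
    have h1 : 0 ≤ 2 * ν * ∫ r in Ioc 0 s, d r :=
      mul_nonneg (by positivity) (setIntegral_nonneg measurableSet_Ioc fun r _ => hdn r)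
    linarith [ev s hs]
  have bu : ∀ s ∈ Icc 0 b, ip (u s) (u s) ≤ ip (u 0) (u 0) := by
    intro s hs
    have h1 : 0 ≤ 2 * ν * ∫ r in Ioc 0 s, Dir (u r) (u r) :=
      mul_nonneg (by positivity) (setIntegral_nonneg measurableSet_Ioc fun r _ => Dir_nonneg _)
    linarith [eu s hs]
  have yw : ∀ s ∈ Icc 0 b, ip (w s) (w s) = ip (v s) (v s) - 2 * ip (v s) (u s)
      + ip (u s) (u s) := by
    intro s hs
    have k1 := lv s hs
    have k2 := (cu s hs).l2
    rw [hw]
    simp only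
    rw [ipL_sub k1 k2 (k1.sub k2), ipL_sub_right k1 k1 k2, ipL_sub_right k2 k1 k2,
      ip_comm (u s) (v s)]
    ring
  have by_ : ∀ s ∈ Icc 0 b, ip (w s) (w s) ≤ 4 * ip (u 0) (u 0) := by
    intro s hs
    have k := two_abs_ip (lv s hs) (cu s hs).l2
    have k1 := neg_abs_le (ip (v s) (u s))
    rw [yw s hs]
    linarith [bv s hs, bu s hs]
  -- the identity
  have hPhi : ∀ s ∈ Ioc 0 b, ∫ x, Wk ν v u s x = P s + 2 * ν * Q s := by
    intro s hs
    have hs1 : s ∈ Icc 0 b := Ioc_subset_Icc_self hs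
    have hs2 : s ∈ Ioo 0 T := ⟨hs.1, hs.2.trans_lt hbT⟩
    have k1 := lv s hs1
    have k2 := lw s hs1
    have k3 := cu s hs1
    have h1 := hue s hs2 _ (hv.mem s ⟨hs.1.le, hs.2.trans_lt hb.2⟩)
    rw [ip_res hu.cls hs2 k1] at h1
    rw [wk_eq hu hs2 k1]
    have h2 : ip (adv (v s) (u s)) (v s) - ip (adv (u s) (u s)) (v s)
        = ip (adv (w s) (u s)) (v s) := by
      rw [← ipL_sub (adv_l2 k1 k3) (adv_l2 k3.l2 k3) k1]
      congr 1
      funext x
      exact adv_sub_left _ _ _ x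
    have h3 : ip (adv (w s) (u s)) (v s) = P s := by
      have h4 : v s = fun x => w s x + u s x := by
        funext x
        rw [hw]
        simp
      have h5 : ip (adv (w s) (u s)) (v s) = ip (adv (w s) (u s)) (fun x => w s x + u s x) := by
        rw [← h4]
      rw [h5, ipL_add_right (adv_l2 k2 k3) k2 k3.l2, adv_orth (ww s hs1) k3, add_zero]
    rw [h3] at h2
    show _ = P s + 2 * ν * ip (lap (u s)) (v s)
    linarith
  -- measurability
  have hsub : Ioc 0 b ×ˢ (univ : Set V) ⊆ Ico 0 T ×ˢ univ := by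
    rintro ⟨s, x⟩ ⟨hs, _⟩
    exact ⟨⟨hs.1.le, hs.2.trans_lt hbT⟩, mem_univ _⟩
  have mv : AEStronglyMeasurable (fun z : ℝ × V => v z.1 z.2)
      ((volume.restrict (Ioc (0 : ℝ) b)).prod (volume : Measure V)) := by
    rw [prod_restrict_eq]
    apply hv.meas.mono_set
    rintro ⟨s, x⟩ ⟨hs, _⟩
    exact ⟨⟨hs.1, hs.2.trans_lt hb.2⟩, mem_univ _⟩
  have mc : ∀ {f : ℝ × V → ℝ}, ContinuousOn f (Ico 0 T ×ˢ univ) → AEStronglyMeasurable f
      ((volume.restrict (Ioc (0 : ℝ) b)).prod (volume : Measure V)) := by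
    intro f hf
    rw [prod_restrict_eq]
    exact (hf.mono hsub).aestronglyMeasurable (measurableSet_Ioc.prod MeasurableSet.univ)
  have mvi : ∀ i, AEStronglyMeasurable (fun z : ℝ × V => v z.1 z.2 i)
      ((volume.restrict (Ioc (0 : ℝ) b)).prod (volume : Measure V)) := fun i =>
    (continuous_apply i).comp_aestronglyMeasurable mv
  have mwi : ∀ i, AEStronglyMeasurable (fun z : ℝ × V => w z.1 z.2 i)
      ((volume.restrict (Ioc (0 : ℝ) b)).prod (volume : Measure V)) := fun i =>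
    (mvi i).sub (mc (SmT.coord_cont hu.sm i))
  have iy : IntegrableOn (fun s => ip (w s) (w s)) (Ioc 0 b) := by
    apply int_param (f := fun z : ℝ × V => ∑ i, w z.1 z.2 i * w z.1 z.2 i)
      (C := 4 * ip (u 0) (u 0))
    · exact Finset.aestronglyMeasurable_fun_sum _ fun i _ => (mwi i).mul (mwi i)
    · intro s hs
      show |ip (w s) (w s)| ≤ _
      rw [abs_of_nonneg (ip_nonneg _)]
      exact by_ s (Ioc_subset_Icc_self hs)
  have iP : IntegrableOn P (Ioc 0 b) := by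
    apply int_param (f := fun z : ℝ × V => ∑ i, adv (w z.1) (u z.1) z.2 i * w z.1 z.2 i)
      (C := 3 * G * (4 * ip (u 0) (u 0)))
    · apply Finset.aestronglyMeasurable_fun_sum
      intro i _
      refine AEStronglyMeasurable.mul ?_ (mwi i)
      show AEStronglyMeasurable (fun z : ℝ × V =>
        ∑ j, w z.1 z.2 j * pd j (fun y => u z.1 y i) z.2) _
      apply Finset.aestronglyMeasurable_fun_sum
      intro j _
      exact (mwi j).mul (mc (TF.pd_cont hu i j))
    · intro s hs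
      have hs1 := Ioc_subset_Icc_self hs
      refine (adv_ip_bound (lw s hs1) (cu s hs1) (hG s hs1)).trans ?_
      exact mul_le_mul_of_nonneg_left (by_ s hs1) (by positivity)
  have iQ : IntegrableOn Q (Ioc 0 b) := by
    apply int_param (f := fun z : ℝ × V => ∑ i, lap (u z.1) z.2 i * v z.1 z.2 i)
      (C := L + ip (u 0) (u 0))
    · apply Finset.aestronglyMeasurable_fun_sum
      intro i _
      refine AEStronglyMeasurable.mul ?_ (mvi i)
      show AEStronglyMeasurable (fun z : ℝ × V =>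
        ∑ j, pd j (pd j (fun y => u z.1 y i)) z.2) _
      apply Finset.aestronglyMeasurable_fun_sum
      intro j _
      exact mc (TF.pdd_cont hu i j j)
    · intro s hs
      have hs1 := Ioc_subset_Icc_self hs
      have k := two_abs_ip (lap_CF (cu s hs1)).l2 (lv s hs1)
      have k1 := abs_nonneg (ip (lap (u s)) (v s))
      show |ip (lap (u s)) (v s)| ≤ _
      linarith [hL s hs1, bv s hs1]
  have iD : IntegrableOn (fun s => ν * Dir (u s) (u s)) (Ioc 0 b) := by
    have h1 := (hu.cls.energy hbT').1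
    have h2 : IntegrableOn (fun s => (-1 / 2 : ℝ) * ∫ x, Eg T u (s, x)) (Ioc 0 b) :=
      h1.const_mul _
    apply h2.congr_fun _ measurableSet_Ioc
    intro s hs
    have hs2 : s ∈ Ioo 0 T := ⟨hs.1, hs.2.trans_lt hbT⟩
    show (-1 / 2 : ℝ) * ∫ x, Eg T u (s, x) = ν * Dir (u s) (u s)
    rw [Eg_eq hu.cls hs2, self_balance hu.cls hs2 (hdv s hs2)
      (hue s hs2 _ (hum s ⟨hs2.1.le, hs2.2⟩))]
    ring
  have id_ : IntegrableOn d (Ioc 0 b) := by
    have h1 := (hD2 b hb).1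
    rwa [intervalIntegrable_iff_integrableOn_Ioc_of_le hb.1] at h1
  -- the main inequality
  have main : ∀ t ∈ Icc 0 b, ip (w t) (w t) ≤ 6 * G * ∫ s in Ioc 0 t, ip (w s) (w s) := by
    intro t ht
    rcases ht.1.eq_or_lt with h | ht0
    · rw [← h]
      have h1 : ip (w 0) (w 0) = 0 := by
        rw [yw 0 hc0, e0, e1]
        ring
      rw [h1]
      simp
    have hs' : Ioc 0 t ⊆ Ioc 0 b := Ioc_subset_Ioc_right ht.2
    have hwk := hv.weak t ⟨ht0, ht.2.trans_lt hb.2⟩ u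
      (hu.sm.mono (prod_mono (fun s hs => ⟨hs.1, (hs.2.trans ht.2).trans_lt hbT⟩) subset_rfl))
      ⟨R, fun s hs x hx => hu.sp s ⟨hs.1, (hs.2.trans ht.2).trans_lt hbT⟩ x hx⟩
      (fun s hs => hum s ⟨hs.1, (hs.2.trans ht.2).trans_lt hbT⟩)
    have h1 : ∫ s in (0 : ℝ)..t, ∫ x, Wk ν v u s x = ∫ s in Ioc 0 t, (P s + 2 * ν * Q s) := by
      rw [intervalIntegral.integral_of_le ht.1]
      apply setIntegral_congr_fun measurableSet_Ioc
      intro s hs
      exact hPhi s (hs' hs)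
    rw [h1, e1] at hwk
    have h2 := ev t ht
    have h3 := eu t ht
    have i1 := iP.mono_set hs'
    have i2 := iQ.mono_set hs'
    have i3 := iD.mono_set hs'
    have i4 := id_.mono_set hs'
    have i5 := iy.mono_set hs'
    have h4 : (∫ s in Ioc 0 t, (-2 * (P s + 2 * ν * Q s) + (-2 * (ν * Dir (u s) (u s))
        + -(2 * ν) * d s))) ≤ ∫ s in Ioc 0 t, 6 * G * ip (w s) (w s) := by
      apply integral_mono_ae
      · exact ((i1.add (i2.const_mul (2 * ν))).const_mul (-2)).add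
          ((i3.const_mul (-2)).add (i4.const_mul _))
      · exact i5.const_mul _
      have h5 : ∀ᵐ s ∂(volume.restrict (Ioc 0 t)), 0 < ν → WGr (v s) (D s) := by
        by_cases hν0 : 0 < ν
        · have h6 := hD1 hν0
          have h7 : ∀ᵐ s ∂(volume.restrict (Ioc 0 t)), WGr (v s) (D s) := by
            apply ae_restrict_of_ae_restrict_of_subset _ h6
            intro s hs
            exact ⟨hs.1, (hs.2.trans ht.2).trans_lt hb.2⟩
          filter_upwards [h7] with s hs _ using hs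
        · exact Eventually.of_forall fun s h => absurd h hν0
      have h6 : ∀ᵐ s ∂(volume.restrict (Ioc 0 t)), s ∈ Ioc 0 t := ae_restrict_mem measurableSet_Ioc
      filter_upwards [h5, h6] with s hs1 hs2
      have hs3 := Ioc_subset_Icc_self (hs' hs2)
      have h7 := (abs_le.1 (adv_ip_bound (lw s hs3) (cu s hs3) (hG s hs3))).1
      have h8 : 0 ≤ ν * (d s + Dir (u s) (u s) + 2 * Q s) := by
        rcases hν.eq_or_lt with h | h
        · rw [← h]
          simp
        · exact mul_nonneg hν (wgr_nonneg (lv s hs3) (hs1 h) (cu s hs3))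
      have h9 : -(3 * G * ip (w s) (w s)) ≤ P s := h7
      linarith
    have h5 : (∫ s in Ioc 0 t, (-2 * (P s + 2 * ν * Q s) + (-2 * (ν * Dir (u s) (u s))
        + -(2 * ν) * d s))) = -2 * (∫ s in Ioc 0 t, (P s + 2 * ν * Q s))
          - 2 * ν * (∫ s in Ioc 0 t, Dir (u s) (u s)) - 2 * ν * ∫ s in Ioc 0 t, d s := by
      have j1 : IntegrableOn (fun s => -2 * (P s + 2 * ν * Q s)) (Ioc 0 t) :=
        (i1.add (i2.const_mul (2 * ν))).const_mul (-2)
      have j2 : IntegrableOn (fun s => -2 * (ν * Dir (u s) (u s))) (Ioc 0 t) := i3.const_mul (-2)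
      have j3 : IntegrableOn (fun s => -(2 * ν) * d s) (Ioc 0 t) := i4.const_mul _
      have j4 : IntegrableOn (fun s => -2 * (ν * Dir (u s) (u s)) + -(2 * ν) * d s) (Ioc 0 t) :=
        j2.add j3
      rw [integral_add j1 j4, integral_add j2 j3, integral_const_mul, integral_const_mul,
        integral_const_mul, integral_const_mul]
      ring
    rw [integral_const_mul] at h4
    rw [yw t ht]
    linarith
  have hfin := gron2 (K := 6 * G) (M := 4 * ip (u 0) (u 0)) (by positivity)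
    (by have := ip_nonneg (u 0); positivity) iy by_ main b ⟨hb.1, le_rfl⟩
  have h1 : ip (w b) (w b) = 0 := le_antisymm hfin (ip_nonneg _)
  have hbm : b ∈ Icc 0 b := ⟨hb.1, le_rfl⟩
  have hnn : ∀ x, 0 ≤ ∑ i, w b x i * w b x i := fun x =>
    Finset.sum_nonneg fun i _ => mul_self_nonneg _
  have h2 := (integral_eq_zero_iff_of_nonneg hnn (ipL_int (lw b hbm) (lw b hbm))).1 h1
  filter_upwards [h2] with x hx
  have h3 : ∑ i, w b x i * w b x i = 0 := hx
  rw [Finset.sum_eq_zero_iff_of_nonneg fun i _ => mul_self_nonneg _] at h3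
  funext i
  have h4 := mul_self_eq_zero.1 (h3 i (Finset.mem_univ i))
  have h5 : v b x i - u b x i = 0 := h4
  linarith

end Pool.Agent.Run7.h407.LH
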