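import Mathlib
import Pool.Agent.Run7.h407.LH.Uniq

/-!
Smooth solutions are Leray-Hopf solutions.
-/

namespace Pool.Agent.Run7.h407.LH

open Set Filter Topology MeasureTheory
open scoped ContDiff

theorem CF.sl {u : V → V} (hu : CF u) : Sl u := by
  refine ⟨hu.sm, hu.cs.exists_bound_of_continuous hu.sm.continuous, hu.l2, fun i j => ?_,
    fun i j k => ?_⟩
  · exact ((hu.smc i).pd j).continuous.memLp_of_hasCompactSupport (pd_cs (hu.csc i) j)
  · exact (((hu.smc i).pd k).pd j).continuous.memLp_of_hasCompactSupport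
      (pd_cs (pd_cs (hu.csc i) k) j)

theorem adv_add_right {u a b : V → V} (ha : ContDiff ℝ ∞ a) (hb : ContDiff ℝ ∞ b) (x : V) :
    adv u (fun y => a y + b y) x = adv u a x + adv u b x := by
  funext i
  show (∑ j, u x j * pd j (fun y => (a y + b y) i) x)
    = (∑ j, u x j * pd j (fun y => a y i) x) + ∑ j, u x j * pd j (fun y => b y i) x
  rw [← Finset.sum_add_distrib]
  apply Finset.sum_congr rfl
  intro j _
  have h1 : pd j (fun y => (a y + b y) i) x = pd j (fun y => a y i) x + pd j (fun y => b y i) x :=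
    pd_add ((sm_comp ha i).diff x) ((sm_comp hb i).diff x) j
  rw [h1]
  ring

theorem Sl.add {u v : V → V} (hu : Sl u) (hv : Sl v) : Sl (fun x => u x + v x) := by
  obtain ⟨C1, h1⟩ := hu.bd
  obtain ⟨C2, h2⟩ := hv.bd
  have e : ∀ i j, pd j (fun y => (u y + v y) i)
      = fun y => pd j (fun y => u y i) y + pd j (fun y => v y i) y := by
    intro i j
    funext y
    exact pd_add ((sm_comp hu.sm i).diff y) ((sm_comp hv.sm i).diff y) j
  refine ⟨hu.sm.add hv.sm, ⟨C1 + C2, fun x => ?_⟩, hu.l0.add hv.l0, fun i j => ?_, fun i j k => ?_⟩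
  · exact (norm_add_le _ _).trans (add_le_add (h1 x) (h2 x))
  · rw [e]
    exact (hu.l1 i j).add (hv.l1 i j)
  · have e2 : pd j (pd k (fun y => (u y + v y) i))
        = fun y => pd j (pd k (fun y => u y i)) y + pd j (pd k (fun y => v y i)) y := by
      rw [e]
      funext y
      exact pd_add (((sm_comp hu.sm i).pd k).diff y) (((sm_comp hv.sm i).pd k).diff y) j
    rw [e2]
    exact (hu.l2 i j k).add (hv.l2 i j k)

theorem adv_anti {u a b : V → V} (hu : Sl u) (hd : ∀ x, dvg u x = 0) (ha : Sl a) (hb : Sl b) :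
    ip (adv u a) b = -ip (adv u b) a := by
  have h1 := adv_skew hu hd (Sl.add ha hb)
  have h2 := adv_skew hu hd ha
  have h3 := adv_skew hu hd hb
  have e : adv u (fun x => a x + b x) = fun x => adv u a x + adv u b x := by
    funext x
    exact adv_add_right ha.sm hb.sm x
  have l1 := hu.adv_l2 ha
  have l2 := hu.adv_l2 hb
  rw [e, ipL_add l1 l2 (ha.l0.add hb.l0), ipL_add_right l1 ha.l0 hb.l0,
    ipL_add_right l2 ha.l0 hb.l0] at h1
  linarith

/-- The classical gradient is a weak gradient. -/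
theorem wgr_of_sl {u : V → V} (hu : Sl u) : WGr u (fun i j x => pd j (fun y => u y i) x) := by
  intro i j
  refine ⟨hu.l1 i j, fun φ hφ hc => ?_⟩
  have h1 := ibp hφ (sm_comp hu.sm i) hc j
  have e1 : ∫ x, pd j (fun y => u y i) x * φ x = ∫ x, φ x * pd j (fun y => u y i) x := by
    congr 1
    funext x
    ring
  have e2 : ∫ x, u x i * pd j φ x = ∫ x, pd j φ x * u x i := by
    congr 1
    funext x
    ring
  rw [e1, h1, e2, neg_neg]

theorem lap_comm {u a : V → V} (hu : Sl u) (ha : CF a) : ip (lap u) a = ip (lap a) u := by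
  have h1 : ip (lap u) a = -Dir u a := lap_ip hu.sm ha
  rw [h1, wgr_lap hu.l0 (wgr_of_sl hu) ha]
  rfl

/-- The time derivative of a test field. -/
noncomputable def FDc (t : ℝ) (ψ : ℝ → V → V) (z : ℝ × V) : V :=
  fderivWithin ℝ (fun z : ℝ × V => ψ z.1 z.2) (Icc 0 t ×ˢ univ) z (1, 0)

theorem FDc_cont {t : ℝ} (ht : 0 < t) {ψ : ℝ → V → V}
    (h : ContDiffOn ℝ ∞ (fun z : ℝ × V => ψ z.1 z.2) (Icc 0 t ×ˢ univ)) :
    ContinuousOn (FDc t ψ) (Icc 0 t ×ˢ univ) :=
  (h.continuousOn_fderivWithin ((uniqueDiffOn_Icc ht).prod uniqueDiffOn_univ)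
    (by simp)).clm_apply continuousOn_const

theorem FDc_deriv {t : ℝ} {ψ : ℝ → V → V}
    (h : ContDiffOn ℝ ∞ (fun z : ℝ × V => ψ z.1 z.2) (Icc 0 t ×ˢ univ)) {s : ℝ}
    (hs : s ∈ Ioo 0 t) (x : V) (i : Fin 3) :
    HasDerivAt (fun r => ψ r x i) (FDc t ψ (s, x) i) s := by
  have hn : Icc 0 t ×ˢ (univ : Set V) ∈ 𝓝 (s, x) :=
    prod_mem_nhds (Icc_mem_nhds hs.1 hs.2) univ_mem
  have hz : (s, x) ∈ Icc 0 t ×ˢ (univ : Set V) := ⟨⟨hs.1.le, hs.2.le⟩, mem_univ _⟩
  have h1 := (((h _ hz).differentiableWithinAt (by simp)).hasFDerivWithinAt).hasFDerivAt hn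
  have h2 : HasDerivAt (fun r : ℝ => (r, x)) ((1 : ℝ), (0 : V)) s :=
    (hasDerivAt_id s).prodMk (hasDerivAt_const s x)
  have h3 := h1.comp_hasDerivAt s h2
  exact (hasDerivAt_pi.1 h3) i

theorem lh_of_proj {W : Submodule ℝ (V → V)} {ν T : ℝ} {u : ℝ → V → V} (hu : IsProj W ν T u)
    (hWd : ∀ w ∈ W, WDF w) : IsLH W ν T u := by
  have hdv : ∀ s ∈ Ico 0 T, ∀ x, dvg (u s) x = 0 := fun s hs x =>
    dvg_of_wdf (hu.cls.sl hs).sm (hWd _ (hu.mem s hs)) x
  refine ⟨?_, hu.mem, ⟨fun s i j x => pd j (fun y => u s y i) x, fun _ => ?_, fun t ht => ?_⟩,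
    fun t ht ψ h1 h2 h3 => ?_⟩
  · apply (hu.cls.sm.continuousOn.mono _).aestronglyMeasurable
      (measurableSet_Ioo.prod MeasurableSet.univ)
    exact prod_mono Ioo_subset_Ico_self subset_rfl
  · rw [ae_restrict_iff' measurableSet_Ioo]
    exact Eventually.of_forall fun s hs => wgr_of_sl (hu.cls.sl ⟨hs.1.le, hs.2⟩)
  · have e : ∀ s, (∫ x, ∑ i, ∑ j, pd j (fun y => u s y i) x ^ 2) = Dir (u s) (u s) := by
      intro s
      unfold Dir
      simp only [pow_two]
    simp only [e]
    refine ⟨?_, (cls_energy hu.cls (fun s hs => hdv s ⟨hs.1.le, hs.2⟩)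
      (fun s hs => hu.eqn s hs _ (hu.mem s ⟨hs.1.le, hs.2⟩)) ht).le⟩
    rw [intervalIntegrable_iff_integrableOn_Ioc_of_le ht.1]
    obtain ⟨C, hC⟩ := hu.cls.bd t ht
    apply int_param (f := fun z : ℝ × V => ∑ i, ∑ j, pd j (fun y => u z.1 y i) z.2
      * pd j (fun y => u z.1 y i) z.2) (C := ∑ _i : Fin 3, ∑ _j : Fin 3, C)
    · rw [prod_restrict_eq]
      have hc : ∀ i j, ContinuousOn (fun z : ℝ × V => pd j (fun y => u z.1 y i) z.2)
          (Ico 0 T ×ˢ univ) := by
        intro i j
        apply ((continuous_apply i).comp_continuousOn (hu.cls.sm.FD_cont.clm_apply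
          (continuousOn_const (c := ((0 : ℝ), (Pi.single j 1 : V)))))).congr
        intro z hz
        have hym : z ∈ Ico 0 T ×ˢ (univ : Set V) := hz
        have k2 := hu.cls.sm.FD_has hym
        have k3 : HasFDerivWithinAt (fun y : V => (z.1, y)) (ContinuousLinearMap.inr ℝ ℝ V)
          univ z.2 := (hasFDerivAt_prodMk_right z.1 z.2).hasFDerivWithinAt
        have k4 := k2.comp (t := Ico 0 T ×ˢ (univ : Set V)) z.2 k3
          (fun y _ => ⟨hz.1, mem_univ _⟩)
        rw [hasFDerivWithinAt_univ] at k4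
        have k5 : HasFDerivAt (fun y : V => u z.1 y i) ((ContinuousLinearMap.proj (R := ℝ)
          (φ := fun _ : Fin 3 => ℝ) i).comp ((FD T u z).comp (ContinuousLinearMap.inr ℝ ℝ V)))
          z.2 := (ContinuousLinearMap.proj (R := ℝ)
          (φ := fun _ : Fin 3 => ℝ) i).hasFDerivAt.comp z.2 k4
        show pd j (fun y => u z.1 y i) z.2 = _
        unfold pd
        rw [k5.fderiv]
        rfl
      apply ContinuousOn.aestronglyMeasurable _ (measurableSet_Ioc.prod MeasurableSet.univ)
      apply continuousOn_finsetSum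
      intro i _
      apply continuousOn_finsetSum
      intro j _
      have hs : Ioc 0 t ×ˢ (univ : Set V) ⊆ Ico 0 T ×ˢ univ :=
        prod_mono (fun s hs => ⟨hs.1.le, hs.2.trans_lt ht.2⟩) subset_rfl
      exact ((hc i j).mono hs).mul ((hc i j).mono hs)
    · intro s hs
      have k := (hC s ⟨hs.1.le, hs.2⟩).2
      have hnn : 0 ≤ ∫ x, ∑ i, ∑ j, pd j (fun y => u s y i) x * pd j (fun y => u s y i) x :=
        integral_nonneg fun x => Finset.sum_nonneg fun i _ => Finset.sum_nonneg fun j _ =>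
          mul_self_nonneg _
      show |∫ x, ∑ i, ∑ j, pd j (fun y => u s y i) x * pd j (fun y => u s y i) x| ≤ _
      rw [abs_of_nonneg hnn]
      have hi : ∀ i j, Integrable (fun x => pd j (fun y => u s y i) x
          * pd j (fun y => u s y i) x) volume := fun i j =>
        ((k i).2.1 j).1.integrable_mul ((k i).2.1 j).1
      rw [integral_finsetSum _ fun i _ => integrable_finsetSum _ fun j _ => hi i j]
      apply Finset.sum_le_sum
      intro i _
      rw [integral_finsetSum _ fun j _ => hi i j]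
      apply Finset.sum_le_sum
      intro j _
      have := ((k i).2.1 j).2
      simp only [pow_two] at this
      exact this
  · obtain ⟨ρ, hρ⟩ := h2
    have hT : TF t ρ ψ := ⟨h1.mono (prod_mono Ico_subset_Icc_self subset_rfl),
      fun s hs x hx => hρ s ⟨hs.1, hs.2.le⟩ x hx⟩
    have hsubT : Icc 0 t ×ˢ (univ : Set V) ⊆ Ico 0 T ×ˢ univ :=
      prod_mono (fun s hs => ⟨hs.1, hs.2.trans_lt ht.2⟩) subset_rfl
    -- the derivative of the product
    set E : ℝ × V → ℝ := fun z => ∑ i, (FD T u z (1, 0) i * ψ z.1 z.2 i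
      + u z.1 z.2 i * FDc t ψ z i) with hE
    have cu : ∀ i, ContinuousOn (fun z : ℝ × V => u z.1 z.2 i) (Icc 0 t ×ˢ univ) := fun i =>
      (hu.cls.sm.coord_cont i).mono hsubT
    have cfu : ∀ i, ContinuousOn (fun z : ℝ × V => FD T u z (1, 0) i) (Icc 0 t ×ˢ univ) :=
      fun i => (hu.cls.sm.FDv_cont (1, 0) i).mono hsubT
    have cψ : ∀ i, ContinuousOn (fun z : ℝ × V => ψ z.1 z.2 i) (Icc 0 t ×ˢ univ) := fun i =>
      (continuous_apply i).comp_continuousOn h1.continuousOn
    have cfψ : ∀ i, ContinuousOn (fun z : ℝ × V => FDc t ψ z i) (Icc 0 t ×ˢ univ) := fun i =>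
      (continuous_apply i).comp_continuousOn (FDc_cont ht.1 h1)
    have cE : ContinuousOn E (Icc 0 t ×ˢ univ) := by
      rw [hE]
      apply continuousOn_finsetSum
      intro i _
      exact ((cfu i).mul (cψ i)).add ((cu i).mul (cfψ i))
    have zE : ∀ s ∈ Ioo 0 t, ∀ x, ρ < ‖x‖ → E (s, x) = 0 := by
      intro s hs x hx
      rw [hE]
      apply Finset.sum_eq_zero
      intro i _
      have k1 : ψ s x = 0 := hρ s ⟨hs.1.le, hs.2.le⟩ x hx
      have k2 : FDc t ψ (s, x) i = 0 := by
        rw [← (FDc_deriv h1 hs x i).deriv]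
        have k3 : (fun r => ψ r x i) =ᶠ[𝓝 s] fun _ => (0 : ℝ) := by
          filter_upwards [Ioo_mem_nhds hs.1 hs.2] with r hr
          rw [hρ r ⟨hr.1.le, hr.2.le⟩ x hx]
          rfl
        rw [k3.deriv_eq]
        simp
      show FD T u (s, x) (1, 0) i * ψ s x i + u s x i * FDc t ψ (s, x) i = 0
      rw [k1, k2]
      simp
    obtain ⟨C, hC⟩ := (isCompact_Icc.prod (isCompact_closedBall (0 : V) ρ)).exists_bound_of_continuousOn
      (cE.mono (prod_mono subset_rfl (subset_univ _)))
    have iE : Integrable E ((volume.restrict (Ioo 0 t)).prod (volume : Measure V)) := by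
      have e : (volume.restrict (Ioo (0 : ℝ) t)).prod (volume : Measure V)
          = ((volume : Measure ℝ).prod (volume : Measure V)).restrict (Ioo 0 t ×ˢ univ) := by
        rw [← Measure.prod_restrict, Measure.restrict_univ]
      rw [e]
      have hm : AEStronglyMeasurable E
          (((volume : Measure ℝ).prod (volume : Measure V)).restrict (Ioo 0 t ×ˢ univ)) :=
        (cE.mono (prod_mono Ioo_subset_Icc_self subset_rfl)).aestronglyMeasurable
          (measurableSet_Ioo.prod MeasurableSet.univ)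
      have hfin : ((volume : Measure ℝ).prod (volume : Measure V))
          (Icc 0 t ×ˢ Metric.closedBall (0 : V) ρ) ≠ ⊤ := by
        rw [Measure.prod_prod]
        exact ENNReal.mul_ne_top (isCompact_Icc.measure_ne_top)
          ((isCompact_closedBall (0 : V) ρ).measure_ne_top)
      have hind : Integrable ((Icc 0 t ×ˢ Metric.closedBall (0 : V) ρ).indicator
          (fun _ : ℝ × V => C)) (((volume : Measure ℝ).prod (volume : Measure V)).restrict
            (Ioo 0 t ×ˢ univ)) := by
        apply Integrable.restrict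
        rw [integrable_indicator_iff (measurableSet_Icc.prod measurableSet_closedBall)]
        exact integrableOn_const hfin
      refine hind.mono' hm ?_
      rw [ae_restrict_iff' (measurableSet_Ioo.prod MeasurableSet.univ)]
      refine Eventually.of_forall fun z hz => ?_
      by_cases hx : z.2 ∈ Metric.closedBall (0 : V) ρ
      · have hz' : z ∈ Icc 0 t ×ˢ Metric.closedBall (0 : V) ρ :=
          Set.mem_prod.2 ⟨Ioo_subset_Icc_self hz.1, hx⟩
        rw [indicator_of_mem hz']
        exact hC z hz'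
      · have hz' : z ∉ Icc 0 t ×ˢ Metric.closedBall (0 : V) ρ :=
          fun h => hx (Set.mem_prod.1 h).2
        rw [indicator_of_notMem hz']
        rw [mem_closedBall_zero_iff, not_le] at hx
        rw [zE z.1 hz.1 z.2 hx, norm_zero]
    have hsw : ∫ s in Ioo 0 t, ∫ x, E (s, x) = ∫ x, ∫ s in Ioo 0 t, E (s, x) :=
      integral_integral_swap (f := fun s x => E (s, x)) iE
    have hpt : ∀ x, ∫ s in Ioo 0 t, E (s, x)
        = (∑ i, u t x i * ψ t x i) - ∑ i, u 0 x i * ψ 0 x i := by
      intro x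
      rw [← integral_Ioc_eq_integral_Ioo, ← intervalIntegral.integral_of_le ht.1.le]
      have hcomp : ∀ {f : ℝ × V → ℝ}, ContinuousOn f (Icc 0 t ×ˢ univ) →
          ContinuousOn (fun s => f (s, x)) (Icc 0 t) := by
        intro f hf
        exact hf.comp (f := fun s : ℝ => (s, x)) (by fun_prop) (fun s hs => ⟨hs, mem_univ _⟩)
      have key := intervalIntegral.integral_eq_sub_of_hasDerivAt_of_le ht.1.le
        (f := fun s => ∑ i, u s x i * ψ s x i) (f' := fun s => E (s, x))
        (continuousOn_finsetSum _ fun i _ => (hcomp (cu i)).mul (hcomp (cψ i)))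
        (fun s hs => by
          rw [hE]
          apply HasDerivAt.fun_sum
          intro i _
          have k1 := hu.cls.sm.time_deriv (t := s) ⟨hs.1, hs.2.trans ht.2⟩ x i
          exact k1.mul (FDc_deriv h1 hs x i))
        (by
          apply ContinuousOn.intervalIntegrable
          rw [uIcc_of_le ht.1.le]
          exact hcomp cE)
      rw [key]
    have hwk : ∀ s ∈ Ioo 0 t, ∫ x, Wk ν u ψ s x = ∫ x, E (s, x) := by
      intro s hs
      have hs' : s ∈ Ioo 0 T := ⟨hs.1, hs.2.trans ht.2⟩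
      have su := hu.cls.sl (t := s) ⟨hs'.1.le, hs'.2⟩
      have cs : CF (ψ s) := hT.slice_CF ⟨hs.1.le, hs.2⟩
      have k1 := hu.eqn s hs' _ (h3 s ⟨hs.1.le, hs.2.le⟩)
      rw [ip_res hu.cls hs' cs.l2] at k1
      have k2 : ∫ x, E (s, x) = ip (dtf u s) (ψ s) + ip (dtf ψ s) (u s) := by
        have j1 := ipL_int (hu.cls.dt_l2 hs') cs.l2
        have j2 := ipL_int (hT.cls.dt_l2 hs) su.l0
        unfold ip
        rw [← integral_add j1 j2]
        congr 1
        funext x
        rw [hE]
        simp only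
        rw [← Finset.sum_add_distrib]
        apply Finset.sum_congr rfl
        intro i _
        show FD T u (s, x) (1, 0) i * ψ s x i + u s x i * FDc t ψ (s, x) i
          = deriv (fun r => u r x i) s * ψ s x i + deriv (fun r => ψ r x i) s * u s x i
        rw [(hu.cls.sm.time_deriv hs' x i).deriv, (FDc_deriv h1 hs x i).deriv]
        ring
      rw [wk_eq hT hs su.l0, k2, lap_comm su cs |>.symm,
        adv_anti su (hdv s ⟨hs'.1.le, hs'.2⟩) (CF.sl cs) su]
      linarith
    rw [intervalIntegral.integral_of_le ht.1.le, integral_Ioc_eq_integral_Ioo,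
      setIntegral_congr_fun measurableSet_Ioo hwk, hsw]
    simp_rw [hpt]
    have i1 := ipL_int (hu.cls.sl ⟨ht.1.le, ht.2⟩).l0 (v := ψ t) (by
      have hc : Continuous (ψ t) := by
        have := (h1.continuousOn.comp (f := fun x : V => (t, x)) (s := univ) (by fun_prop)
          (fun x _ => ⟨⟨ht.1.le, le_rfl⟩, mem_univ _⟩))
        rwa [continuousOn_univ] at this
      intro i
      apply Continuous.memLp_of_hasCompactSupport ((continuous_apply i).comp hc)
      apply HasCompactSupport.intro (isCompact_closedBall (0 : V) ρ)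
      intro x hx
      rw [mem_closedBall_zero_iff, not_le] at hx
      show ψ t x i = 0
      rw [hρ t ⟨ht.1.le, le_rfl⟩ x hx]
      rfl)
    have i2 := ipL_int (hu.cls.sl (t := 0) ⟨le_rfl, ht.1.trans ht.2⟩).l0
      (hT.slice_CF (t := 0) ⟨le_rfl, ht.1⟩).l2
    rw [integral_sub i1 i2]
    rfl

end Pool.Agent.Run7.h407.LH
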