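import Mathlib
import Pool.Agent.Run7.h407.LH.Proj
import Pool.Agent.Run7.h407.G.ESp

/-!
Admissible weak solutions of the projected Euler equations on the torus coincide with the smooth
solution.
-/

namespace Pool.Agent.Run7.h407.LH

open Set Filter Topology MeasureTheory
open scoped ContDiff
open Pool.Agent.Run7.h407.G

open Pool.Agent.Run7.h308.T (cube_meas cube_sub box_compact box_bound)

/-- The integrand of the weak formulation. -/
noncomputable def WkT (v ψ : ℝ → V → V) (s : ℝ) (x : V) : ℝ :=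
  ∑ i, (v s x i * deriv (fun r => ψ r x i) s
    + ∑ j, v s x i * v s x j * pd j (fun y => ψ s y i) x)

/-- Admissible weak solutions. -/
structure IsWT (W : Submodule ℝ (V → V)) (T : ℝ) (v : ℝ → V → V) : Prop where
  meas : AEStronglyMeasurable (fun z : ℝ × V => v z.1 z.2) (volume.restrict (Ioo 0 T ×ˢ cube))
  mem : ∀ t ∈ Ico 0 T, v t ∈ W
  en : ∀ t ∈ Ico 0 T, ipT (v t) (v t) ≤ ipT (v 0) (v 0)
  weak : ∀ t ∈ Ioo 0 T, ∀ ψ : ℝ → V → V,
    ContDiffOn ℝ ∞ (fun z : ℝ × V => ψ z.1 z.2) (Icc 0 t ×ˢ univ) → (∀ s ∈ Icc 0 t, ψ s ∈ W) →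
    ipT (v t) (ψ t) - ipT (v 0) (ψ 0) = ∫ s in (0 : ℝ)..t, ∫ x in cube, WkT v ψ s x

theorem memLp_bddT {f g : V → ℝ} (hf : Continuous f) (hg : MemLp g 2 (volume.restrict cube)) :
    MemLp (fun x => f x * g x) 2 (volume.restrict cube) := by
  obtain ⟨C, hC⟩ := box_compact.exists_bound_of_continuousOn hf.continuousOn
  refine MemLp.of_le_mul (c := C) hg (hf.aestronglyMeasurable.mul hg.aestronglyMeasurable) ?_
  rw [ae_restrict_iff' cube_meas]
  refine Eventually.of_forall fun x hx => ?_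
  rw [norm_mul]
  exact mul_le_mul_of_nonneg_right (hC x (cube_sub hx)) (norm_nonneg _)

theorem adv_l2T {w u : V → V} (hw : L2T w) (hu : ContDiff ℝ 1 u) : L2T (adv w u) := by
  intro i
  show MemLp (fun x => ∑ j, w x j * pd j (fun y => u y i) x) 2 _
  apply memLp_finsetSum
  intro j _
  have h1 := memLp_bddT (Run7.h308.T.cont_pd (Run7.h308.T.c1_comp hu i) j) (hw j)
  have e : (fun x => w x j * pd j (fun y => u y i) x)
      = fun x => pd j (fun y => u y i) x * w x j := by
    funext x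
    ring
  rw [e]
  exact h1

theorem L2T.addf {u v : V → V} (hu : L2T u) (hv : L2T v) : L2T (fun x => u x + v x) :=
  fun i => (hu i).add (hv i)

theorem L2T.subf {u v : V → V} (hu : L2T u) (hv : L2T v) : L2T (fun x => u x - v x) :=
  fun i => (hu i).sub (hv i)

theorem ipT_addf {u v w : V → V} (hu : L2T u) (hv : L2T v) (hw : L2T w) :
    ipT (fun x => u x + v x) w = ipT u w + ipT v w := ipT_add hu hv hw

theorem ipT_subf {u v w : V → V} (hu : L2T u) (hv : L2T v) (hw : L2T w) :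
    ipT (fun x => u x - v x) w = ipT u w - ipT v w := by
  unfold ipT
  rw [← integral_sub (ipT_int hu hw) (ipT_int hv hw)]
  congr 1
  funext x
  rw [← Finset.sum_sub_distrib]
  apply Finset.sum_congr rfl
  intro i _
  show (u x i - v x i) * w x i = _
  ring

theorem ipT_addr {u v w : V → V} (hu : L2T u) (hv : L2T v) (hw : L2T w) :
    ipT u (fun x => v x + w x) = ipT u v + ipT u w := by
  rw [ipT_comm, ipT_addf hv hw hu, ipT_comm v, ipT_comm w]

theorem ipT_subr {u v w : V → V} (hu : L2T u) (hv : L2T v) (hw : L2T w) :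
    ipT u (fun x => v x - w x) = ipT u v - ipT u w := by
  rw [ipT_comm, ipT_subf hv hw hu, ipT_comm v, ipT_comm w]

theorem ipT_nonneg (v : V → V) : 0 ≤ ipT v v :=
  integral_nonneg fun _ => Finset.sum_nonneg fun _ _ => mul_self_nonneg _

theorem ipT_congr_ae {u u' : V → V} (h : ∀ᵐ x ∂(volume.restrict cube), u x = u' x) (v : V → V) :
    ipT u v = ipT u' v := by
  apply integral_congr_ae
  filter_upwards [h] with x hx
  rw [hx]

theorem adv_orthT {w u : V → V} (hw : WDT w) (hu : ContDiff ℝ ∞ u) (hp : Per u) :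
    ipT (adv w u) u = 0 := by
  have h0 : ContDiff ℝ ∞ (fun x => (1 / 2 : ℝ) * ∑ i, u x i * u x i) := by
    apply contDiff_const.mul
    apply ContDiff.sum
    intro i _
    exact (sm_comp hu i).mul (sm_comp hu i)
  have h1 : Per (fun x => (1 / 2 : ℝ) * ∑ i, u x i * u x i) := by
    intro x k
    show (1 / 2 : ℝ) * ∑ i, u _ i * u _ i = (1 / 2 : ℝ) * ∑ i, u x i * u x i
    rw [hp x k]
  have h2 := hw _ h0 h1
  rw [← h2]
  unfold ipT
  congr 1
  funext x
  have h3 : ∀ j, pd j (fun x => (1 / 2 : ℝ) * ∑ i, u x i * u x i) x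
      = ∑ i, u x i * pd j (fun y => u y i) x := by
    intro j
    have hd : ∀ i ∈ (Finset.univ : Finset (Fin 3)),
        DifferentiableAt ℝ (fun y => u y i * u y i) x := fun i _ =>
      ((sm_comp hu i).diff x).mul ((sm_comp hu i).diff x)
    have hd2 : DifferentiableAt ℝ (fun y => ∑ i, u y i * u y i) x := DifferentiableAt.fun_sum hd
    rw [pd_const_mul _ hd2, pd_sum hd, Finset.mul_sum]
    apply Finset.sum_congr rfl
    intro i _
    rw [pd_mul ((sm_comp hu i).diff x) ((sm_comp hu i).diff x)]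
    ring
  simp_rw [h3]
  unfold adv
  simp_rw [Finset.mul_sum, Finset.sum_mul]
  rw [Finset.sum_comm]
  apply Finset.sum_congr rfl
  intro i _
  apply Finset.sum_congr rfl
  intro j _
  ring

theorem adv_ip_boundT {w u : V → V} (hw : L2T w) (hu : ContDiff ℝ 1 u) {G : ℝ} (hG0 : 0 ≤ G)
    (hG : ∀ x ∈ cube, ∀ i j, |pd j (fun y => u y i) x| ≤ G) :
    |ipT (adv w u) w| ≤ 3 * G * ipT w w := by
  have i1 := ipT_int (adv_l2T hw hu) hw
  have i2 := ipT_int hw hw
  unfold ipT
  rw [← integral_const_mul, ← Real.norm_eq_abs]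
  refine (norm_integral_le_integral_norm _).trans ?_
  apply integral_mono_ae i1.norm (i2.const_mul _)
  have hm : ∀ᵐ x ∂(volume.restrict cube), x ∈ cube := ae_restrict_mem cube_meas
  filter_upwards [hm] with x hx
  show ‖∑ i, adv w u x i * w x i‖ ≤ 3 * G * ∑ i, w x i * w x i
  have h1 : ∀ i, ‖adv w u x i * w x i‖ ≤ ∑ j, G * (|w x j| * |w x i|) := by
    intro i
    rw [norm_mul, Real.norm_eq_abs, Real.norm_eq_abs]
    unfold adv
    have h2 : |∑ j, w x j * pd j (fun y => u y i) x| ≤ ∑ j, |w x j| * G := by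
      refine (Finset.abs_sum_le_sum_abs _ _).trans (Finset.sum_le_sum fun j _ => ?_)
      rw [abs_mul]
      exact mul_le_mul_of_nonneg_left (hG x hx i j) (abs_nonneg _)
    refine (mul_le_mul_of_nonneg_right h2 (abs_nonneg _)).trans (le_of_eq ?_)
    rw [Finset.sum_mul]
    apply Finset.sum_congr rfl
    intro j _
    ring
  refine (norm_sum_le _ _).trans ((Finset.sum_le_sum fun i _ => h1 i).trans ?_)
  have h3 : ∀ i, w x i * w x i = |w x i| * |w x i| := fun i => (abs_mul_abs_self _).symm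
  simp_rw [h3, Fin.sum_univ_three]
  set a := |w x 0|
  set b := |w x 1|
  set c := |w x 2|
  nlinarith [mul_nonneg hG0 (sq_nonneg (a - b)), mul_nonneg hG0 (sq_nonneg (b - c)),
    mul_nonneg hG0 (sq_nonneg (a - c))]

theorem two_abs_ipT {a b : V → V} (ha : L2T a) (hb : L2T b) :
    2 * |ipT a b| ≤ ipT a a + ipT b b := by
  have h1 := ipT_nonneg (fun x => a x + b x)
  have h2 := ipT_nonneg (fun x => a x - b x)
  rw [ipT_addf ha hb (L2T.addf ha hb), ipT_addr ha ha hb, ipT_addr hb ha hb, ipT_comm b a] at h1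
  rw [ipT_subf ha hb (L2T.subf ha hb), ipT_subr ha ha hb, ipT_subr hb ha hb, ipT_comm b a] at h2
  have h3 : |2 * ipT a b| ≤ ipT a a + ipT b b := by
    rw [abs_le]
    constructor <;> linarith
  rwa [abs_mul, abs_of_pos (by norm_num : (0 : ℝ) < 2)] at h3

theorem dtf_l2T {T : ℝ} {u : ℝ → V → V} (hu : C1T T u) {s : ℝ} (hs : s ∈ Ioo 0 T) :
    L2T (dtf u s) := by
  intro i
  have e : (fun x => dtf u s x i) = fun x => Run7.h308.T.FD T u (s, x) (1, 0) i := by
    funext x
    exact (Run7.h308.T.time_deriv hu hs x i).deriv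
  rw [e]
  exact memLp_cube (Run7.h308.T.slice_cont (Run7.h308.T.fdv_cont hu (1, 0) i) ⟨hs.1.le, hs.2⟩)

theorem ipT_res {T : ℝ} {u : ℝ → V → V} (hu : C1T T u) {s : ℝ} (hs : s ∈ Ioo 0 T) {v : V → V}
    (hv : L2T v) : ∫ x in cube, ∑ i, resE u s x i * v x i
      = ipT (dtf u s) v + ipT (adv (u s) (u s)) v := by
  have hc := Run7.h308.T.slice_c1 hu (t := s) ⟨hs.1.le, hs.2⟩
  have h1 := adv_l2T (L2T_of_cont hc.continuous) hc
  rw [← ipT_addf (dtf_l2T hu hs) h1 hv]
  rfl

theorem wkT_eq {T : ℝ} {ψ v : ℝ → V → V} (hψ : C1T T ψ) {s : ℝ} (hs : s ∈ Ioo 0 T)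
    (hv : L2T (v s)) : ∫ x in cube, WkT v ψ s x
      = ipT (dtf ψ s) (v s) + ipT (adv (v s) (ψ s)) (v s) := by
  have hc := Run7.h308.T.slice_c1 hψ (t := s) ⟨hs.1.le, hs.2⟩
  have i1 := ipT_int (dtf_l2T hψ hs) hv
  have i2 := ipT_int (adv_l2T hv hc) hv
  unfold ipT
  rw [← integral_add i1 i2]
  congr 1
  funext x
  unfold WkT
  rw [← Finset.sum_add_distrib]
  apply Finset.sum_congr rfl
  intro i _
  show v s x i * deriv (fun r => ψ r x i) s + (∑ j, v s x i * v s x j * pd j (fun y => ψ s y i) x)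
    = deriv (fun r => ψ r x i) s * v s x i + (∑ j, v s x j * pd j (fun y => ψ s y i) x) * v s x i
  rw [Finset.sum_mul]
  have e : (∑ j, v s x i * v s x j * pd j (fun y => ψ s y i) x)
      = ∑ j, v s x j * pd j (fun y => ψ s y i) x * v s x i := by
    apply Finset.sum_congr rfl
    intro j _
    ring
  rw [e]
  ring

theorem prod_restrictT (b : ℝ) :
    (volume.restrict (Ioc (0 : ℝ) b)).prod ((volume : Measure V).restrict cube)
    = (volume : Measure (ℝ × V)).restrict (Ioc 0 b ×ˢ cube) := by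
  rw [Measure.volume_eq_prod, ← Measure.prod_restrict]

theorem int_paramT {b C : ℝ} {f : ℝ × V → ℝ}
    (hm : AEStronglyMeasurable f
      ((volume.restrict (Ioc (0 : ℝ) b)).prod ((volume : Measure V).restrict cube)))
    (hC : ∀ s ∈ Ioc 0 b, |∫ x in cube, f (s, x)| ≤ C) :
    IntegrableOn (fun s => ∫ x in cube, f (s, x)) (Ioc 0 b) := by
  have : IsFiniteMeasure ((volume : Measure ℝ).restrict (Ioc 0 b)) :=
    ⟨by
      rw [Measure.restrict_apply_univ]
      exact measure_Ioc_lt_top⟩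
  apply Integrable.of_bound hm.integral_prod_right' C
  rw [ae_restrict_iff' measurableSet_Ioc]
  exact Eventually.of_forall fun s hs => hC s hs

theorem wt_unique {W : Submodule ℝ (V → V)} {T T' : ℝ} {u v : ℝ → V → V}
    (hus : ContDiffOn ℝ ∞ (fun z : ℝ × V => u z.1 z.2) (Ico 0 T ×ˢ univ))
    (hWp : ∀ w ∈ W, Per w) (hW2 : ∀ w ∈ W, L2T w) (hWd : ∀ w ∈ W, WDT w)
    (hum : ∀ t ∈ Ico 0 T, u t ∈ W)
    (hue : ∀ t ∈ Ioo 0 T, ∀ w ∈ W, ∫ x in cube, ∑ i, resE u t x i * w x i = 0)
    (hv : IsWT W T' v) (h0 : ∀ᵐ x ∂(volume.restrict cube), v 0 x = u 0 x) :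
    ∀ t ∈ Ico 0 T', t < T → ∀ᵐ x ∂(volume.restrict cube), v t x = u t x := by
  intro b hb hbT
  rcases hb.1.eq_or_lt with h | hb0
  · rw [← h]
    exact h0
  have hu : C1T T u := ⟨hus.of_le (by norm_cast), fun t ht => hWp _ (hum t ht)⟩
  have hbT' : b ∈ Ico 0 T := ⟨hb.1, hbT⟩
  have hsm : ∀ s ∈ Icc 0 b, ContDiff ℝ ∞ (u s) := by
    intro s hs
    rw [← contDiffOn_univ]
    have h1 : ContDiffOn ℝ ∞ (fun x : V => (s, x)) univ :=
      (contDiff_const.prodMk contDiff_id).contDiffOn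
    exact hus.comp h1 (fun x _ => ⟨⟨hs.1, hs.2.trans_lt hbT⟩, mem_univ _⟩)
  have c1 : ∀ s ∈ Icc 0 b, ContDiff ℝ 1 (u s) := fun s hs => (hsm s hs).of_le (by norm_cast)
  -- the bound of the gradient
  have hGG : ∃ G, 0 ≤ G ∧ ∀ s ∈ Icc 0 b, ∀ x ∈ cube, ∀ i j, |pd j (fun y => u s y i) x| ≤ G := by
    have h1 : ∀ i j, ∃ C : ℝ, 0 ≤ C ∧ ∀ t ∈ Icc 0 b, ∀ x ∈ Run7.h308.T.box,
        |Run7.h308.T.FD T u (t, x) (0, Pi.single j 1) i| ≤ C := fun i j =>
      box_bound hbT (Run7.h308.T.fdv_cont hu (0, Pi.single j 1) i)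
    choose C hC0 hC using h1
    refine ⟨∑ i, ∑ j, C i j, Finset.sum_nonneg fun i _ => Finset.sum_nonneg fun j _ => hC0 i j,
      fun s hs x hx i j => ?_⟩
    rw [Run7.h308.T.space_deriv hu ⟨hs.1, hs.2.trans_lt hbT⟩]
    refine (hC i j s hs x (cube_sub hx)).trans ?_
    have h3 := Finset.single_le_sum (f := fun j => C i j) (fun k _ => hC0 i k)
      (Finset.mem_univ j)
    have h4 := Finset.single_le_sum (f := fun i => ∑ j, C i j)
      (fun i _ => Finset.sum_nonneg fun k _ => hC0 i k) (Finset.mem_univ i)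
    exact h3.trans h4
  obtain ⟨G, hG0, hG⟩ := hGG
  set w : ℝ → V → V := fun s x => v s x - u s x with hw
  set P : ℝ → ℝ := fun s => ipT (adv (w s) (u s)) (w s) with hP
  have lu : ∀ s ∈ Icc 0 b, L2T (u s) := fun s hs => L2T_of_cont (c1 s hs).continuous
  have lv : ∀ s ∈ Icc 0 b, L2T (v s) := fun s hs => hW2 _ (hv.mem s ⟨hs.1, hs.2.trans_lt hb.2⟩)
  have lw : ∀ s ∈ Icc 0 b, L2T (w s) := fun s hs => L2T.subf (lv s hs) (lu s hs)
  have ww : ∀ s ∈ Icc 0 b, WDT (w s) := fun s hs => hWd _ (W.sub_mem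
    (hv.mem s ⟨hs.1, hs.2.trans_lt hb.2⟩) (hum s ⟨hs.1, hs.2.trans_lt hbT⟩))
  have hc0 : (0 : ℝ) ∈ Icc 0 b := ⟨le_rfl, hb.1⟩
  -- the energies
  have e0 : ipT (v 0) (v 0) = ipT (u 0) (u 0) := by
    rw [ipT_congr_ae h0, ipT_comm, ipT_congr_ae h0]
  have e1 : ipT (v 0) (u 0) = ipT (u 0) (u 0) := ipT_congr_ae h0 _
  have bv : ∀ s ∈ Icc 0 b, ipT (v s) (v s) ≤ ipT (u 0) (u 0) := by
    intro s hs
    rw [← e0]
    exact hv.en s ⟨hs.1, hs.2.trans_lt hb.2⟩
  have bu : ∀ s ∈ Icc 0 b, ipT (u s) (u s) = ipT (u 0) (u 0) := by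
    intro s hs
    exact Run7.h308.T.te T u hu
      (fun r hr x => (Run7.h308.T.tw (u r) (Run7.h308.T.slice_c1 hu ⟨hr.1.le, hr.2⟩)
        (hu.per r ⟨hr.1.le, hr.2⟩)).1 (hWd _ (hum r ⟨hr.1.le, hr.2⟩)) x)
      (fun r hr => hue r hr _ (hum r ⟨hr.1.le, hr.2⟩)) s ⟨hs.1, hs.2.trans_lt hbT⟩
  have yw : ∀ s ∈ Icc 0 b, ipT (w s) (w s) = ipT (v s) (v s) - 2 * ipT (v s) (u s)
      + ipT (u s) (u s) := by
    intro s hs
    have k1 := lv s hs
    have k2 := lu s hs
    rw [hw]
    simp only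
    rw [ipT_subf k1 k2 (L2T.subf k1 k2), ipT_subr k1 k1 k2, ipT_subr k2 k1 k2,
      ipT_comm (u s) (v s)]
    ring
  have by_ : ∀ s ∈ Icc 0 b, ipT (w s) (w s) ≤ 4 * ipT (u 0) (u 0) := by
    intro s hs
    have k := two_abs_ipT (lv s hs) (lu s hs)
    have k1 := neg_abs_le (ipT (v s) (u s))
    rw [yw s hs]
    linarith [bv s hs, bu s hs]
  -- the identity
  have hPhi : ∀ s ∈ Ioc 0 b, ∫ x in cube, WkT v u s x = P s := by
    intro s hs
    have hs1 : s ∈ Icc 0 b := Ioc_subset_Icc_self hs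
    have hs2 : s ∈ Ioo 0 T := ⟨hs.1, hs.2.trans_lt hbT⟩
    have k1 := lv s hs1
    have k2 := lw s hs1
    have k3 := c1 s hs1
    have k4 := lu s hs1
    have h1 := hue s hs2 _ (hv.mem s ⟨hs.1.le, hs.2.trans_lt hb.2⟩)
    rw [ipT_res hu hs2 k1] at h1
    rw [wkT_eq hu hs2 k1]
    have h2 : ipT (adv (v s) (u s)) (v s) - ipT (adv (u s) (u s)) (v s)
        = ipT (adv (w s) (u s)) (v s) := by
      rw [← ipT_subf (adv_l2T k1 k3) (adv_l2T k4 k3) k1]
      congr 1
      funext x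
      exact adv_sub_left _ _ _ x
    have h3 : ipT (adv (w s) (u s)) (v s) = P s := by
      have h4 : v s = fun x => w s x + u s x := by
        funext x
        rw [hw]
        simp
      have h5 : ipT (adv (w s) (u s)) (v s)
          = ipT (adv (w s) (u s)) (fun x => w s x + u s x) := by
        rw [← h4]
      rw [h5, ipT_addr (adv_l2T k2 k3) k2 k4, adv_orthT (ww s hs1) (hsm s hs1)
        (hu.per s ⟨hs2.1.le, hs2.2⟩), add_zero]
    rw [h3] at h2
    linarith
  -- measurability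
  have hsub : Ioc 0 b ×ˢ cube ⊆ Ico 0 T ×ˢ (univ : Set V) := by
    rintro ⟨s, x⟩ ⟨hs, _⟩
    exact ⟨⟨hs.1.le, hs.2.trans_lt hbT⟩, mem_univ _⟩
  have mv : AEStronglyMeasurable (fun z : ℝ × V => v z.1 z.2)
      ((volume.restrict (Ioc (0 : ℝ) b)).prod ((volume : Measure V).restrict cube)) := by
    rw [prod_restrictT]
    apply hv.meas.mono_set
    rintro ⟨s, x⟩ ⟨hs, hx⟩
    exact ⟨⟨hs.1, hs.2.trans_lt hb.2⟩, hx⟩
  have mc : ∀ {f : ℝ × V → ℝ}, ContinuousOn f (Ico 0 T ×ˢ univ) → AEStronglyMeasurable f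
      ((volume.restrict (Ioc (0 : ℝ) b)).prod ((volume : Measure V).restrict cube)) := by
    intro f hf
    rw [prod_restrictT]
    exact (hf.mono hsub).aestronglyMeasurable (measurableSet_Ioc.prod cube_meas)
  have mwi : ∀ i, AEStronglyMeasurable (fun z : ℝ × V => w z.1 z.2 i)
      ((volume.restrict (Ioc (0 : ℝ) b)).prod ((volume : Measure V).restrict cube)) := fun i =>
    ((continuous_apply i).comp_aestronglyMeasurable mv).sub (mc (Run7.h308.T.co_cont hu i))
  have iy : IntegrableOn (fun s => ipT (w s) (w s)) (Ioc 0 b) := by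
    apply int_paramT (f := fun z : ℝ × V => ∑ i, w z.1 z.2 i * w z.1 z.2 i)
      (C := 4 * ipT (u 0) (u 0))
    · exact Finset.aestronglyMeasurable_fun_sum _ fun i _ => (mwi i).mul (mwi i)
    · intro s hs
      show |ipT (w s) (w s)| ≤ _
      rw [abs_of_nonneg (ipT_nonneg _)]
      exact by_ s (Ioc_subset_Icc_self hs)
  have iP : IntegrableOn P (Ioc 0 b) := by
    apply int_paramT (f := fun z : ℝ × V => ∑ i, adv (w z.1) (u z.1) z.2 i * w z.1 z.2 i)
      (C := 3 * G * (4 * ipT (u 0) (u 0)))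
    · apply Finset.aestronglyMeasurable_fun_sum
      intro i _
      refine AEStronglyMeasurable.mul ?_ (mwi i)
      show AEStronglyMeasurable (fun z : ℝ × V =>
        ∑ j, w z.1 z.2 j * pd j (fun y => u z.1 y i) z.2) _
      apply Finset.aestronglyMeasurable_fun_sum
      intro j _
      refine (mwi j).mul (mc ?_)
      apply (Run7.h308.T.fdv_cont hu (0, Pi.single j 1) i).congr
      intro z hz
      exact Run7.h308.T.space_deriv hu hz.1 z.2 i j
    · intro s hs
      have hs1 := Ioc_subset_Icc_self hs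
      refine (adv_ip_boundT (lw s hs1) (c1 s hs1) hG0 (hG s hs1)).trans ?_
      exact mul_le_mul_of_nonneg_left (by_ s hs1) (by positivity)
  -- the main inequality
  have main : ∀ t ∈ Icc 0 b, ipT (w t) (w t) ≤ 6 * G * ∫ s in Ioc 0 t, ipT (w s) (w s) := by
    intro t ht
    rcases ht.1.eq_or_lt with h | ht0
    · rw [← h]
      have h1 : ipT (w 0) (w 0) = 0 := by
        rw [yw 0 hc0, e0, e1]
        ring
      rw [h1]
      simp
    have hs' : Ioc 0 t ⊆ Ioc 0 b := Ioc_subset_Ioc_right ht.2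
    have hwk := hv.weak t ⟨ht0, ht.2.trans_lt hb.2⟩ u
      (hus.mono (prod_mono (fun s hs => ⟨hs.1, (hs.2.trans ht.2).trans_lt hbT⟩) subset_rfl))
      (fun s hs => hum s ⟨hs.1, (hs.2.trans ht.2).trans_lt hbT⟩)
    have h1 : ∫ s in (0 : ℝ)..t, ∫ x in cube, WkT v u s x = ∫ s in Ioc 0 t, P s := by
      rw [intervalIntegral.integral_of_le ht.1]
      apply setIntegral_congr_fun measurableSet_Ioc
      intro s hs
      exact hPhi s (hs' hs)
    rw [h1, e1] at hwk
    have i1 := iP.mono_set hs'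
    have i5 := iy.mono_set hs'
    have h4 : (∫ s in Ioc 0 t, -2 * P s) ≤ ∫ s in Ioc 0 t, 6 * G * ipT (w s) (w s) := by
      apply setIntegral_mono_on (i1.const_mul _) (i5.const_mul _) measurableSet_Ioc
      intro s hs2
      have hs3 := Ioc_subset_Icc_self (hs' hs2)
      have h7 := (abs_le.1 (adv_ip_boundT (lw s hs3) (c1 s hs3) hG0 (hG s hs3))).1
      have h9 : -(3 * G * ipT (w s) (w s)) ≤ P s := h7
      linarith
    rw [integral_const_mul, integral_const_mul] at h4
    rw [yw t ht, bu t ht]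
    linarith [bv t ht]
  have hfin := gron2 (K := 6 * G) (M := 4 * ipT (u 0) (u 0)) (by positivity)
    (by have := ipT_nonneg (u 0); positivity) iy by_ main b ⟨hb.1, le_rfl⟩
  have h1 : ipT (w b) (w b) = 0 := le_antisymm hfin (ipT_nonneg _)
  have hbm : b ∈ Icc 0 b := ⟨hb.1, le_rfl⟩
  have hnn : ∀ x, 0 ≤ ∑ i, w b x i * w b x i := fun x =>
    Finset.sum_nonneg fun i _ => mul_self_nonneg _
  have h2 := (integral_eq_zero_iff_of_nonneg hnn (ipT_int (lw b hbm) (lw b hbm))).1 h1
  filter_upwards [h2] with x hx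
  have h3 : ∑ i, w b x i * w b x i = 0 := hx
  rw [Finset.sum_eq_zero_iff_of_nonneg fun i _ => mul_self_nonneg _] at h3
  funext i
  have h4 := mul_self_eq_zero.1 (h3 i (Finset.mem_univ i))
  have h5 : v b x i - u b x i = 0 := h4
  linarith

/-! ### Classical solutions are admissible weak solutions -/

theorem adv_antiT {u a b : V → V} (hu : ContDiff ℝ 1 u) (pu : Per u) (hd : ∀ x, dvg u x = 0)
    (ha : ContDiff ℝ 1 a) (pa : Per a) (hb : ContDiff ℝ 1 b) (pb : Per b) :
    ipT (adv u a) b = -ipT (adv u b) a := by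
  have h1 : ipT (adv u (fun x => a x + b x)) (fun x => a x + b x) = 0 :=
    Run7.h308.T.adv_zero hu pu (ha.add hb) (fun x k => by
      show a _ + b _ = a x + b x
      rw [pa x k, pb x k]) hd
  have h2 : ipT (adv u a) a = 0 := Run7.h308.T.adv_zero hu pu ha pa hd
  have h3 : ipT (adv u b) b = 0 := Run7.h308.T.adv_zero hu pu hb pb hd
  have e : adv u (fun x => a x + b x) = fun x => adv u a x + adv u b x := by
    funext x
    funext i
    show (∑ j, u x j * pd j (fun y => (a y + b y) i) x)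
      = (∑ j, u x j * pd j (fun y => a y i) x) + ∑ j, u x j * pd j (fun y => b y i) x
    rw [← Finset.sum_add_distrib]
    apply Finset.sum_congr rfl
    intro j _
    have h1 : pd j (fun y => (a y + b y) i) x
        = pd j (fun y => a y i) x + pd j (fun y => b y i) x :=
      pd_add (Run7.h308.T.c1_diff (Run7.h308.T.c1_comp ha i) x)
        (Run7.h308.T.c1_diff (Run7.h308.T.c1_comp hb i) x) j
    rw [h1]
    ring
  have la := L2T_of_cont ha.continuous
  have lb := L2T_of_cont hb.continuous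
  have lu := L2T_of_cont hu.continuous
  have l1 := adv_l2T lu ha
  have l2 := adv_l2T lu hb
  rw [e, ipT_addf l1 l2 (L2T.addf la lb), ipT_addr l1 la lb, ipT_addr l2 la lb] at h1
  linarith

theorem wt_of_proj {W : Submodule ℝ (V → V)} {T : ℝ} {u : ℝ → V → V} (hu : IsProjT W T u)
    (hWp : ∀ w ∈ W, Per w) (hWd : ∀ w ∈ W, WDT w) : IsWT W T u := by
  have hc : C1T T u := ⟨hu.c1, fun t ht => hWp _ (hu.mem t ht)⟩
  have hdv : ∀ s ∈ Ico 0 T, ∀ x, dvg (u s) x = 0 := fun s hs =>
    (Run7.h308.T.tw (u s) (Run7.h308.T.slice_c1 hc hs) (hc.per s hs)).1 (hWd _ (hu.mem s hs))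
  refine ⟨?_, hu.mem, fun t ht => ?_, fun t ht ψ h1 h3 => ?_⟩
  · apply (hu.c1.continuousOn.mono _).aestronglyMeasurable (measurableSet_Ioo.prod cube_meas)
    exact prod_mono Ioo_subset_Ico_self (subset_univ _)
  · exact (Run7.h308.T.te T u hc (fun s hs => hdv s ⟨hs.1.le, hs.2⟩)
      (fun s hs => hu.eqn s hs _ (hu.mem s ⟨hs.1.le, hs.2⟩)) t ht).le
  · have hsubT : Icc 0 t ×ˢ (univ : Set V) ⊆ Ico 0 T ×ˢ univ :=
      prod_mono (fun s hs => ⟨hs.1, hs.2.trans_lt ht.2⟩) subset_rfl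
    have hψ : C1T t ψ := ⟨(h1.mono (prod_mono Ico_subset_Icc_self subset_rfl)).of_le
      (by norm_cast), fun s hs => hWp _ (h3 s ⟨hs.1, hs.2.le⟩)⟩
    -- the derivative of the product
    set E : ℝ × V → ℝ := fun z => ∑ i, (Run7.h308.T.FD T u z (1, 0) i * ψ z.1 z.2 i
      + u z.1 z.2 i * FDc t ψ z i) with hE
    have cu : ∀ i, ContinuousOn (fun z : ℝ × V => u z.1 z.2 i) (Icc 0 t ×ˢ univ) := fun i =>
      (Run7.h308.T.co_cont hc i).mono hsubT
    have cfu : ∀ i, ContinuousOn (fun z : ℝ × V => Run7.h308.T.FD T u z (1, 0) i)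
        (Icc 0 t ×ˢ univ) := fun i => (Run7.h308.T.fdv_cont hc (1, 0) i).mono hsubT
    have cψ : ∀ i, ContinuousOn (fun z : ℝ × V => ψ z.1 z.2 i) (Icc 0 t ×ˢ univ) := fun i =>
      (continuous_apply i).comp_continuousOn h1.continuousOn
    have cfψ : ∀ i, ContinuousOn (fun z : ℝ × V => FDc t ψ z i) (Icc 0 t ×ˢ univ) := fun i =>
      (continuous_apply i).comp_continuousOn (FDc_cont ht.1 h1)
    have cE : ContinuousOn E (Icc 0 t ×ˢ univ) := by
      rw [hE]
      apply continuousOn_finsetSum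
      intro i _
      exact ((cfu i).mul (cψ i)).add ((cu i).mul (cfψ i))
    obtain ⟨C, hC⟩ := (isCompact_Icc.prod box_compact).exists_bound_of_continuousOn
      (cE.mono (prod_mono subset_rfl (subset_univ _)))
    have iE : Integrable E ((volume.restrict (Ioo 0 t)).prod
        ((volume : Measure V).restrict cube)) := by
      have e : (volume.restrict (Ioo (0 : ℝ) t)).prod ((volume : Measure V).restrict cube)
          = ((volume : Measure ℝ).prod (volume : Measure V)).restrict (Ioo 0 t ×ˢ cube) := by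
        rw [← Measure.prod_restrict]
      rw [e]
      have hm : AEStronglyMeasurable E
          (((volume : Measure ℝ).prod (volume : Measure V)).restrict (Ioo 0 t ×ˢ cube)) :=
        (cE.mono (prod_mono Ioo_subset_Icc_self (subset_univ _))).aestronglyMeasurable
          (measurableSet_Ioo.prod cube_meas)
      have hfin : ((volume : Measure ℝ).prod (volume : Measure V))
          (Ioo 0 t ×ˢ cube) ≠ ⊤ := by
        rw [Measure.prod_prod]
        exact ENNReal.mul_ne_top measure_Ioo_lt_top.ne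
          ((measure_mono cube_sub).trans_lt box_compact.measure_lt_top).ne
      have hcst : Integrable (fun _ : ℝ × V => C)
          (((volume : Measure ℝ).prod (volume : Measure V)).restrict (Ioo 0 t ×ˢ cube)) :=
        integrableOn_const hfin
      refine hcst.mono' hm ?_
      rw [ae_restrict_iff' (measurableSet_Ioo.prod cube_meas)]
      exact Eventually.of_forall fun z hz => hC z ⟨Ioo_subset_Icc_self hz.1, cube_sub hz.2⟩
    have hsw : ∫ s in Ioo 0 t, ∫ x in cube, E (s, x) = ∫ x in cube, ∫ s in Ioo 0 t, E (s, x) :=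
      integral_integral_swap (f := fun s x => E (s, x)) iE
    have hpt : ∀ x, ∫ s in Ioo 0 t, E (s, x)
        = (∑ i, u t x i * ψ t x i) - ∑ i, u 0 x i * ψ 0 x i := by
      intro x
      rw [← integral_Ioc_eq_integral_Ioo, ← intervalIntegral.integral_of_le ht.1.le]
      have hcomp : ∀ {f : ℝ × V → ℝ}, ContinuousOn f (Icc 0 t ×ˢ univ) →
          ContinuousOn (fun s => f (s, x)) (Icc 0 t) := by
        intro f hf
        exact hf.comp (f := fun s : ℝ => (s, x)) (by fun_prop) (fun s hs => ⟨hs, mem_univ _⟩)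
      have key := intervalIntegral.integral_eq_sub_of_hasDerivAt_of_le ht.1.le
        (f := fun s => ∑ i, u s x i * ψ s x i) (f' := fun s => E (s, x))
        (continuousOn_finsetSum _ fun i _ => (hcomp (cu i)).mul (hcomp (cψ i)))
        (fun s hs => by
          rw [hE]
          apply HasDerivAt.fun_sum
          intro i _
          have k1 := Run7.h308.T.time_deriv hc (t := s) ⟨hs.1, hs.2.trans ht.2⟩ x i
          exact k1.mul (FDc_deriv h1 hs x i))
        (by
          apply ContinuousOn.intervalIntegrable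
          rw [uIcc_of_le ht.1.le]
          exact hcomp cE)
      rw [key]
    have hwk : ∀ s ∈ Ioo 0 t, ∫ x in cube, WkT u ψ s x = ∫ x in cube, E (s, x) := by
      intro s hs
      have hs' : s ∈ Ioo 0 T := ⟨hs.1, hs.2.trans ht.2⟩
      have hs'' : s ∈ Ico 0 T := ⟨hs'.1.le, hs'.2⟩
      have su := Run7.h308.T.slice_c1 hc hs''
      have cs := Run7.h308.T.slice_c1 hψ (t := s) ⟨hs.1.le, hs.2⟩
      have lu := L2T_of_cont su.continuous
      have lc := L2T_of_cont cs.continuous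
      have k1 := hu.eqn s hs' _ (h3 s ⟨hs.1.le, hs.2.le⟩)
      rw [ipT_res hc hs' lc] at k1
      have k2 : ∫ x in cube, E (s, x) = ipT (dtf u s) (ψ s) + ipT (dtf ψ s) (u s) := by
        have j1 := ipT_int (dtf_l2T hc hs') lc
        have j2 := ipT_int (dtf_l2T hψ hs) lu
        unfold ipT
        rw [← integral_add j1 j2]
        congr 1
        funext x
        rw [hE]
        simp only
        rw [← Finset.sum_add_distrib]
        apply Finset.sum_congr rfl
        intro i _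
        show Run7.h308.T.FD T u (s, x) (1, 0) i * ψ s x i + u s x i * FDc t ψ (s, x) i
          = deriv (fun r => u r x i) s * ψ s x i + deriv (fun r => ψ r x i) s * u s x i
        rw [(Run7.h308.T.time_deriv hc hs' x i).deriv, (FDc_deriv h1 hs x i).deriv]
        ring
      rw [wkT_eq hψ hs lu, k2, adv_antiT su (hc.per s hs'') (hdv s hs'') cs
        (hψ.per s ⟨hs.1.le, hs.2⟩) su (hc.per s hs'')]
      linarith
    rw [intervalIntegral.integral_of_le ht.1.le, integral_Ioc_eq_integral_Ioo,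
      setIntegral_congr_fun measurableSet_Ioo hwk, hsw]
    simp_rw [hpt]
    have hct : ∀ s ∈ Icc 0 t, Continuous (ψ s) := by
      intro s hs
      have := (h1.continuousOn.comp (f := fun x : V => (s, x)) (s := univ) (by fun_prop)
        (fun x _ => ⟨hs, mem_univ _⟩))
      rwa [continuousOn_univ] at this
    have i1 := ipT_int (L2T_of_cont (Run7.h308.T.slice_c1 hc (t := t) ⟨ht.1.le, ht.2⟩).continuous)
      (L2T_of_cont (hct t ⟨ht.1.le, le_rfl⟩))
    have i2 := ipT_int (L2T_of_cont (Run7.h308.T.slice_c1 hc (t := 0)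
      ⟨le_rfl, ht.1.trans ht.2⟩).continuous) (L2T_of_cont (hct 0 ⟨le_rfl, ht.1.le⟩))
    rw [integral_sub i1 i2]
    rfl

end Pool.Agent.Run7.h407.LH
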